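import Pool.Agent.H4.LW.Glue
import Pool.Agent.H31.LE.Crit
import Pool.Agent.H29.SH.ExpD

/-!
PROJECT LE, block LW (captain helper4). The estimates for all `p < pcc d`, weights `wm m`.
-/

namespace H4LW

open H5DF H95LBD H95LE H15LE MeasureTheory
open scoped ENNReal

variable {d : ℕ}

lemma wm_nm (m : ℕ) (x : V d) : (wm m x : ℝ≥0∞) ≤
    ENNReal.ofReal (1 + (d : ℝ)) * ENNReal.ofReal ((1 + (nm x : ℝ)) ^ (2 * m)) := by
  rw [← ENNReal.ofReal_mul (by positivity)]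
  have e1 : (wm m x : ℝ) ≤ (1 + (d : ℝ)) * (1 + (nm x : ℝ)) ^ (2 * m) := by
    unfold wm
    push_cast
    have hn : (0 : ℝ) ≤ nm x := Nat.cast_nonneg _
    have e2 : ∑ i, ((x i).natAbs : ℝ) ^ (2 * m) ≤ ∑ _i : Fin d, (1 + (nm x : ℝ)) ^ (2 * m) := by
      refine Finset.sum_le_sum fun i _ => ?_
      have : ((x i).natAbs : ℝ) ≤ nm x := by exact_mod_cast natAbs_le_nm x i
      exact pow_le_pow_left₀ (Nat.cast_nonneg _) (by linarith) _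
    rw [Finset.sum_const, Finset.card_univ, Fintype.card_fin, nsmul_eq_mul] at e2
    have e3 : (1 : ℝ) ≤ (1 + (nm x : ℝ)) ^ (2 * m) := one_le_pow₀ (by linarith)
    linarith
  calc (wm m x : ℝ≥0∞) = ENNReal.ofReal (wm m x : ℝ) := by rw [ENNReal.ofReal_natCast]
    _ ≤ _ := ENNReal.ofReal_le_ofReal e1

theorem gw_finW (m : ℕ) (hd : 1 ≤ d) {p : ℝ} (h0 : 0 ≤ p) (hp : p < SH.pcc d) :
    ∑' x : V d, gw (wm m) p x ≠ ⊤ := by
  have e1 : ∀ x : V d, gw (wm m) p x ≤ ENNReal.ofReal (1 + (d : ℝ)) *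
      (ENNReal.ofReal ((1 + (nm x : ℝ)) ^ (2 * m)) * tau d p x) := by
    intro x
    rw [← mul_assoc]
    exact mul_le_mul' (wm_nm m x) le_rfl
  refine (lt_of_le_of_lt (ENNReal.tsum_le_tsum e1) ?_).ne
  rw [ENNReal.tsum_mul_left]
  exact ENNReal.mul_lt_top ENNReal.ofReal_lt_top (SH.mom_fin hd h0 hp (2 * m))

/-- All estimates for the weight `wm m`, uniformly in `p < pcc d`, for `d ≥ d0 (m, b0)`. -/
theorem crit_wm (m : ℕ) (hm : 1 ≤ m) : ∃ K0 C : ℝ, 2 ≤ K0 ∧ 0 ≤ C ∧ ∀ b0 : ℝ, 0 < b0 →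
    ∃ d0 : ℕ, ∀ d, d0 ≤ d → ∀ p : ℝ, 0 ≤ p → p < SH.pcc d →
      H95LE.sq (gw (wm m : V d → ℕ) p) ≤ ENNReal.ofReal K0 ∧
      (∀ x, jg p (gw (wm m : V d → ℕ) p) x ≤ ENNReal.ofReal b0) ∧
      2 * d * p ≤ 12 / 11 ∧
      ∑' x : V d, gw (wm m) p x ≤ ENNReal.ofReal C * (∑' x, tau d p x) ^ (1 + m) ∧
      InpW m d p (lacX d p) := by
  obtain ⟨K0, b1, hK0, hb1, hstep⟩ := boot_step m hm
  obtain ⟨C, hC, htwo⟩ := four_twoW m hm
  refine ⟨K0, C, hK0, hC, ?_⟩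
  intro b0 hb0
  obtain ⟨d0, hd0, hstep2⟩ := hstep (min b0 b1) (lt_min hb0 hb1) (min_le_right _ _)
  refine ⟨d0, ?_⟩
  intro d hd p h0 hp
  have hd1 : 1 ≤ d := by omega
  have hfin : ∀ q : ℝ, 0 ≤ q → q < SH.pcc d → ∑' x : V d, gw (wm m) q x ≠ ⊤ :=
    fun q hq hq2 => gw_finW m hd1 hq hq2
  have h1 : ∀ q : ℝ, q < SH.pcc d → q ≤ 1 := fun q hq => hq.le.trans (SH.pcc_le_one hd1)
  have key := H31LE.boot (H31LE.mn_pcc hd1) (wm_wt (d := d) m hm) hfin K0 (min b0 b1) hK0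
    (lt_min hb0 hb1) (fun q hq hq2 hs hj =>
      (hstep2 d hd q hq (h1 q hq2) (hfin q hq hq2) hs hj).2) p h0 hp
  have hsq : H95LE.sq (gw (wm m : V d → ℕ) p) ≤ ENNReal.ofReal K0 :=
    key.1.trans (ENNReal.ofReal_le_ofReal (by linarith))
  have hmin : 0 < min b0 b1 := lt_min hb0 hb1
  have hjg : ∀ x, jg p (gw (wm m : V d → ℕ) p) x ≤ ENNReal.ofReal (min b0 b1) := fun x =>
    (key.2 x).trans (ENNReal.ofReal_le_ofReal (by linarith))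
  have hI := (hstep2 d hd p h0 (h1 p hp) (hfin p h0 hp) hsq hjg).1
  obtain ⟨h3, h4⟩ := htwo d p (lacX d p) hI
  exact ⟨hsq, fun x => (hjg x).trans (ENNReal.ofReal_le_ofReal (min_le_left _ _)), h3, h4, hI⟩

end H4LW
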