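import Pool.Agent.H15.LE.Base
import Pool.Agent.H95.LE.WtDef

/-!
PROJECT LE (MP_0d9ad5_pr), note 2738, section 3 for the weights `wm m` (Fourier block, general weight).
Definitions and simple facts.
-/

namespace H4LW

open H5DF H95LBD H95LE H15LE MeasureTheory

variable {d : ℕ}

/-- Multiplication by the `n`-th power of the coordinate `j`. -/
noncomputable def mn (j : Fin d) (n : ℕ) (f : V d → ℝ) (x : V d) : ℝ := (x j : ℝ) ^ n * f x

/-- Summability with the weight `wm m`. -/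
def WM (m : ℕ) (f : V d → ℝ) : Prop := Summable fun x => (wm m x : ℝ) * |f x|

/-- The real weighted two-point function. -/
noncomputable def gm (m d : ℕ) (p : ℝ) (x : V d) : ℝ := (wm m x : ℝ) * tr d p x

/-- The step function `J`. -/
noncomputable def jf (d : ℕ) (p : ℝ) (x : V d) : ℝ := ∑ s : Dir d, if x = step s then p else 0

/-- The inputs of the Fourier block, general weight. -/
structure InpW (m d : ℕ) (p : ℝ) (X : V d → ℝ) : Prop where
  d0 : 0 < d
  p0 : 0 ≤ p
  p1 : p ≤ 1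
  fin : ∑' x : V d, gw (wm m) p x ≠ ⊤
  sX : WM m X
  bX : ∑' x : V d, (wm m x : ℝ) * |X x - (if x = 0 then 1 else 0)| ≤ 1 / 12
  eq : ∀ x, (tau d p x).toReal = X x +
    ∑' b : V d × Dir d, X b.1 * p * (tau d p (x - b.1 - step b.2)).toReal

lemma wm_real (m : ℕ) (x : V d) : (wm m x : ℝ) = 1 + ∑ i, (x i : ℝ) ^ (2 * m) := by
  unfold wm
  push_cast
  congr 1
  refine Finset.sum_congr rfl fun i _ => ?_
  rw [Nat.cast_natAbs, Int.cast_abs, pow_mul, sq_abs, ← pow_mul]

lemma one_le_wm (m : ℕ) (x : V d) : (1 : ℝ) ≤ (wm m x : ℝ) := by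
  have : 1 ≤ wm m x := by unfold wm; omega
  exact_mod_cast this

lemma top_le_wm (m : ℕ) (j : Fin d) (x : V d) : |(x j : ℝ)| ^ (2 * m) ≤ (wm m x : ℝ) := by
  have h : (x j).natAbs ^ (2 * m) ≤ wm m x := by
    unfold wm
    have := Finset.single_le_sum (f := fun i => (x i).natAbs ^ (2 * m)) (fun i _ => Nat.zero_le _)
      (Finset.mem_univ j)
    omega
  have h2 : |(x j : ℝ)| ^ (2 * m) = (((x j).natAbs ^ (2 * m) : ℕ) : ℝ) := by
    push_cast
    rw [Nat.cast_natAbs, Int.cast_abs]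
  rw [h2]
  exact_mod_cast h

/-- Smaller positive powers of an integer are smaller. -/
lemma int_pow_le {a : ℤ} {n N : ℕ} (h1 : 1 ≤ n) (h2 : n ≤ N) : |(a : ℝ)| ^ n ≤ |(a : ℝ)| ^ N := by
  by_cases h : a = 0
  · subst h
    rw [Int.cast_zero, abs_zero, zero_pow (by omega), zero_pow (by omega)]
  · have h3 : (1 : ℝ) ≤ |(a : ℝ)| := by
      rw [← Int.cast_abs]
      exact_mod_cast Int.one_le_abs h
    exact pow_le_pow_right₀ h3 h2

lemma pow_le_wm {m n : ℕ} (h : n ≤ 2 * m) (j : Fin d) (x : V d) :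
    |(x j : ℝ)| ^ n ≤ (wm m x : ℝ) := by
  rcases Nat.eq_zero_or_pos n with h0 | h0
  · subst h0
    rw [pow_zero]
    exact one_le_wm m x
  · exact (int_pow_le h0 h).trans (top_le_wm m j x)

lemma w2_le_wm {m : ℕ} (hm : 1 ≤ m) (x : V d) : (w2 x : ℝ) ≤ (wm m x : ℝ) := by
  rw [w2_eq, wm_real]
  refine add_le_add le_rfl (Finset.sum_le_sum fun i _ => ?_)
  have h := int_pow_le (a := x i) (n := 2) (N := 2 * m) (by omega) (by omega)
  rw [sq_abs, pow_mul, sq_abs, ← pow_mul] at h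
  exact h

lemma abs_mn (j : Fin d) (n : ℕ) (f : V d → ℝ) (x : V d) : |mn j n f x| = |(x j : ℝ)| ^ n * |f x| := by
  rw [mn, abs_mul, abs_pow]

lemma WM.mn {m n : ℕ} {f : V d → ℝ} (h : WM m f) (j : Fin d) (hn : n ≤ 2 * m) :
    Summable (mn j n f) := by
  refine Summable.of_norm_bounded h fun x => ?_
  rw [Real.norm_eq_abs, abs_mn]
  exact mul_le_mul_of_nonneg_right (pow_le_wm hn j x) (abs_nonneg _)

lemma WM.sum {m : ℕ} {f : V d → ℝ} (h : WM m f) : Summable f := by
  refine Summable.of_norm_bounded h fun x => ?_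
  rw [Real.norm_eq_abs]
  exact le_mul_of_one_le_left (abs_nonneg _) (one_le_wm m x)

lemma WM.ws {m : ℕ} (hm : 1 ≤ m) {f : V d → ℝ} (h : WM m f) : WS f := by
  refine Summable.of_nonneg_of_le (fun x => by positivity) (fun x => ?_) h
  exact mul_le_mul_of_nonneg_right (w2_le_wm hm x) (abs_nonneg _)

lemma mn_zero (j : Fin d) (f : V d → ℝ) : mn j 0 f = f := by
  funext x
  simp [mn]

lemma mn_one (j : Fin d) (f : V d → ℝ) : mn j 1 f = mx j f := by
  funext x
  simp [mn, mx]

lemma WM.sub_delta {m : ℕ} {X : V d → ℝ} (h : WM m X) :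
    WM m fun x => X x - (if x = 0 then 1 else 0) := by
  have h1 : Summable fun x : V d => (wm m x : ℝ) * |if x = 0 then (1 : ℝ) else 0| := by
    refine summable_of_ne_finset_zero (s := {0}) fun x hx => ?_
    rw [Finset.mem_singleton] at hx
    rw [if_neg hx]
    simp
  refine Summable.of_nonneg_of_le (fun x => by positivity) (fun x => ?_) (h.add h1)
  rw [← mul_add]
  exact mul_le_mul_of_nonneg_left (abs_sub _ _) (by positivity)

lemma gt_le_gw {m : ℕ} (hm : 1 ≤ m) (p : ℝ) (x : V d) : gt d p x ≤ gw (wm m) p x := by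
  have h := w2_le_wm hm x
  have h2 : w2 x ≤ wm m x := by exact_mod_cast h
  have h3 : (w2 x : ENNReal) ≤ (wm m x : ENNReal) := by exact_mod_cast h2
  exact mul_le_mul' h3 le_rfl

/-- The inputs of the general block contain the inputs of the block for `w2`. -/
theorem InpW.inp {m d : ℕ} (hm : 1 ≤ m) {p : ℝ} {X : V d → ℝ} (h : InpW m d p X) : Inp d p X where
  d0 := h.d0
  p0 := h.p0
  p1 := h.p1
  fin := ne_top_of_le_ne_top h.fin (ENNReal.tsum_le_tsum fun x => gt_le_gw hm p x)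
  sX := h.sX.ws hm
  bX := by
    refine le_trans (Summable.tsum_le_tsum (fun x => ?_) (h.sX.sub_delta.ws hm) h.sX.sub_delta) h.bX
    exact mul_le_mul_of_nonneg_right (w2_le_wm hm x) (abs_nonneg _)
  eq := h.eq

end H4LW
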