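import Pool.Agent.H15.LE.JSq
import Pool.Agent.H15.LE.Intg
import Pool.Agent.H15.LE.Conv
import Pool.Agent.H15.LE.Shf
import Pool.Agent.H15.LE.Brg
import Pool.Agent.H4.LW.Def

/-!
PROJECT LE, block LW (captain helper4), job LW-IntW. From the bound of the transform of `g = gm m d p` to `sq` and `jg`.

PROOF. `gw (wm m) p = ofReal ∘ gm` (`gw_eqW`; `Σ gw ≠ ⊤` gives `gw x ≠ ⊤`, so `tau x ≠ ⊤`), `gm` summable and nonnegative. `sqW`: `sq` is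
`ofReal` of `cr g (cr g (cr g g)) 0` (`cv_ofReal`, `cr_nonneg`, `summable_cr`, `summable_cr_term`), its transform is `(ft g k)^4` (`ft_cr`), `val_le`.
`jgW`: `jc_ofReal`, `sh p (cr g (cr g g))` has the transform `j0 p k * (ft g k)^3` (`ft_sh`, `ft_cr`).
`sq_bdW`: `‖ft g‖ₑ^4 ≤ ofReal K^4 ((ofReal u)⁻¹)^(4q)`, `int_pow` with `m = 4 q` (`4 (4 q) ≤ d`). `jg_bdW`: Cauchy-Schwarz as in `fin_bd` of JSq.lean
(`ENNReal.lintegral_mul_le_Lp_mul_Lq`, exponents 2, 2) with `j_sq` and `∫ ((ofReal u)⁻¹)^(6 q)` (`m = 6 q`, `4 (6 q) ≤ d`);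
`p √(2d) = (2dp)/√(2d) ≤ (12/11)/√(2d)`.
-/

namespace H4LW

open H5DF H95LBD H95LE H15LE MeasureTheory

variable {d : ℕ}

lemma gm_nonneg (m : ℕ) (p : ℝ) (x : V d) : 0 ≤ gm m d p x :=
  mul_nonneg (Nat.cast_nonneg _) (tr_nonneg p x)

lemma IntW_tau_ne_top {m : ℕ} {p : ℝ} (h : ∑' x : V d, gw (wm m) p x ≠ ⊤) (x : V d) :
    tau d p x ≠ ⊤ := by
  intro ht
  refine ENNReal.ne_top_of_tsum_ne_top h x ?_
  unfold gw
  rw [ht]
  refine ENNReal.mul_top ?_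
  have h1 : wm m x ≠ 0 := by unfold wm; omega
  exact_mod_cast h1

lemma gw_eqW {m : ℕ} {p : ℝ} (h : ∑' x : V d, gw (wm m) p x ≠ ⊤) (x : V d) :
    gw (wm m) p x = ENNReal.ofReal (gm m d p x) := by
  unfold gw gm tr
  rw [ENNReal.ofReal_mul (Nat.cast_nonneg _), ENNReal.ofReal_natCast,
    ENNReal.ofReal_toReal (IntW_tau_ne_top h x)]

lemma IntW_gm_eq (m : ℕ) (p : ℝ) (x : V d) : gm m d p x = (gw (wm m) p x).toReal := by
  unfold gw gm tr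
  rw [ENNReal.toReal_mul, ENNReal.toReal_natCast]

lemma summable_gm {m : ℕ} {p : ℝ} (h : ∑' x : V d, gw (wm m) p x ≠ ⊤) :
    Summable (gm m d p) :=
  (ENNReal.summable_toReal h).congr fun x => (IntW_gm_eq m p x).symm

lemma IntW_fun {m : ℕ} {p : ℝ} (h : ∑' x : V d, gw (wm m) p x ≠ ⊤) :
    gw (wm m : V d → ℕ) p = fun x => ENNReal.ofReal (gm m d p x) :=
  funext fun x => gw_eqW h x

theorem sqW {m : ℕ} {p : ℝ} (h : ∑' x : V d, gw (wm m) p x ≠ ⊤) :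
    H95LE.sq (gw (wm m : V d → ℕ) p) ≤ ∫⁻ k, ‖ft (gm m d p) k‖ₑ ^ 4 ∂(mu d) := by
  have n1 := fun x => gm_nonneg (d := d) m p x
  have n2 := fun x => cr_nonneg n1 n1 x
  have n3 := fun x => cr_nonneg n1 n2 x
  have s1 := summable_gm h
  have s2 := summable_cr s1 s1
  have s3 := summable_cr s1 s2
  have s4 := summable_cr s1 s3
  unfold H95LE.sq
  rw [IntW_fun h, cv_ofReal n1 n1 (summable_cr_term s1 s1),
    cv_ofReal n1 n2 (summable_cr_term s1 s2), cv_ofReal n1 n3 (summable_cr_term s1 s3)]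
  refine (val_le s4 0).trans (le_of_eq ?_)
  refine lintegral_congr fun k => ?_
  rw [ft_cr s1 s3, ft_cr s1 s2, ft_cr s1 s1, ← enorm_pow]
  congr 1
  ring

theorem jgW {m : ℕ} {p : ℝ} (h0 : 0 ≤ p) (h : ∑' x : V d, gw (wm m) p x ≠ ⊤) (x : V d) :
    jg p (gw (wm m : V d → ℕ) p) x ≤ ∫⁻ k, ‖(j0 p k : ℂ) * ft (gm m d p) k ^ 3‖ₑ ∂(mu d) := by
  have n1 := fun x => gm_nonneg (d := d) m p x
  have n2 := fun x => cr_nonneg n1 n1 x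
  have n3 := fun x => cr_nonneg n1 n2 x
  have s1 := summable_gm h
  have s2 := summable_cr s1 s1
  have s3 := summable_cr s1 s2
  unfold jg
  rw [IntW_fun h, cv_ofReal n1 n1 (summable_cr_term s1 s1),
    cv_ofReal n1 n2 (summable_cr_term s1 s2), jc_ofReal h0 n3]
  refine (val_le (summable_sh p s3) x).trans (le_of_eq ?_)
  refine lintegral_congr fun k => ?_
  rw [ft_sh p s3, ft_cr s1 s2, ft_cr s1 s1]
  congr 1
  ring

theorem sq_bdW (q : ℕ) {K : ℝ} (hK : 0 ≤ K) : ∃ S : ℝ, 0 ≤ S ∧ ∀ d : ℕ, 16 * q ≤ d → 0 < d →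
    ∀ F : (Fin d → ℝ) → ℂ,
      (∀ᵐ k ∂(mu d), ‖F k‖ₑ ≤ ENNReal.ofReal K * (ENNReal.ofReal (uu k))⁻¹ ^ q) →
      ∫⁻ k, ‖F k‖ₑ ^ 4 ∂(mu d) ≤ ENNReal.ofReal S := by
  obtain ⟨I, hI, hI2⟩ := int_pow
  have h8 : ENNReal.ofReal K ^ 4 * I ^ (4 * (4 * q)) ≠ ⊤ := by finiteness
  refine ⟨(ENNReal.ofReal K ^ 4 * I ^ (4 * (4 * q))).toReal, ENNReal.toReal_nonneg, ?_⟩
  intro d hd hd0 F hF
  rw [ENNReal.ofReal_toReal h8]
  calc ∫⁻ k, ‖F k‖ₑ ^ 4 ∂(mu d)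
      ≤ ∫⁻ k, ENNReal.ofReal K ^ 4 * (ENNReal.ofReal (uu k))⁻¹ ^ (4 * q) ∂(mu d) := by
        refine lintegral_mono_ae ?_
        filter_upwards [hF] with k hk
        calc ‖F k‖ₑ ^ 4 ≤ (ENNReal.ofReal K * (ENNReal.ofReal (uu k))⁻¹ ^ q) ^ 4 := by gcongr
          _ = _ := by rw [mul_pow, ← pow_mul, mul_comm q 4]
    _ = ENNReal.ofReal K ^ 4 * ∫⁻ k, (ENNReal.ofReal (uu k))⁻¹ ^ (4 * q) ∂(mu d) := by
        rw [lintegral_const_mul' _ _ (by simp)]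
    _ ≤ _ := by
        gcongr
        exact hI2 (4 * q) d (by omega) hd0

/-- Cauchy-Schwarz for the last integral, general power. -/
lemma IntW_cs (q : ℕ) {p K : ℝ} (h0 : 0 ≤ p) (hd : 0 < d) (hl : 2 * d * p ≤ 12 / 11)
    {M : ENNReal} (hM : ∫⁻ k, (ENNReal.ofReal (uu k))⁻¹ ^ (6 * q) ∂(mu d) ≤ M)
    {F : (Fin d → ℝ) → ℂ}
    (hF : ∀ᵐ k ∂(mu d), ‖F k‖ₑ ≤ ENNReal.ofReal K * (ENNReal.ofReal (uu k))⁻¹ ^ q) :
    ∫⁻ k, ‖(j0 p k : ℂ) * F k ^ 3‖ₑ ∂(mu d) ≤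
      ENNReal.ofReal (2 / Real.sqrt (2 * d)) * (ENNReal.ofReal K ^ 3 * M ^ (1 / 2 : ℝ)) := by
  have hu : Continuous fun k : Fin d → ℝ => uu k := by
    unfold uu
    fun_prop
  have hum : Measurable fun k : Fin d → ℝ => (ENNReal.ofReal (uu k))⁻¹ :=
    (ENNReal.measurable_ofReal.comp hu.measurable).inv
  have hjm : Measurable fun k : Fin d → ℝ => ‖(j0 p k : ℂ)‖ₑ :=
    (Complex.continuous_ofReal.comp (JSq_cont p)).measurable.enorm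
  have hgm : Measurable fun k : Fin d → ℝ =>
      ENNReal.ofReal K ^ 3 * (ENNReal.ofReal (uu k))⁻¹ ^ (3 * q) :=
    (hum.pow_const (3 * q)).const_mul _
  have h1 : ∫⁻ k, ‖(j0 p k : ℂ) * F k ^ 3‖ₑ ∂(mu d) ≤
      ∫⁻ k, ((fun k : Fin d → ℝ => ‖(j0 p k : ℂ)‖ₑ) *
        fun k : Fin d → ℝ => ENNReal.ofReal K ^ 3 * (ENNReal.ofReal (uu k))⁻¹ ^ (3 * q)) k
          ∂(mu d) := by
    refine lintegral_mono_ae ?_
    filter_upwards [hF] with k hk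
    rw [enorm_mul, enorm_pow, Pi.mul_apply]
    refine mul_le_mul_right ?_ _
    calc ‖F k‖ₑ ^ 3 ≤ (ENNReal.ofReal K * (ENNReal.ofReal (uu k))⁻¹ ^ q) ^ 3 :=
          pow_le_pow_left₀ zero_le hk 3
      _ = ENNReal.ofReal K ^ 3 * (ENNReal.ofReal (uu k))⁻¹ ^ (3 * q) := by
          rw [mul_pow, ← pow_mul, mul_comm q 3]
  refine h1.trans ?_
  refine (ENNReal.lintegral_mul_le_Lp_mul_Lq (mu d) Real.HolderConjugate.two_two
    hjm.aemeasurable hgm.aemeasurable).trans ?_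
  refine mul_le_mul' ?_ ?_
  · have h2 : ∫⁻ k, ‖(j0 p k : ℂ)‖ₑ ^ (2 : ℝ) ∂(mu d) = ENNReal.ofReal (2 * d * p ^ 2) := by
      rw [← j_sq h0]
      refine lintegral_congr fun k => ?_
      exact ENNReal.rpow_two _
    rw [h2, ENNReal.ofReal_rpow_of_nonneg (by positivity) (by norm_num)]
    refine ENNReal.ofReal_le_ofReal ?_
    rw [← Real.sqrt_eq_rpow]
    exact JSq_arith h0 hd hl
  · have h3 : ∀ k : Fin d → ℝ,
        (ENNReal.ofReal K ^ 3 * (ENNReal.ofReal (uu k))⁻¹ ^ (3 * q)) ^ (2 : ℝ)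
        = ENNReal.ofReal K ^ 6 * (ENNReal.ofReal (uu k))⁻¹ ^ (6 * q) := by
      intro k
      rw [ENNReal.rpow_two, mul_pow, ← pow_mul, ← pow_mul]
      congr 2
      ring
    simp_rw [h3]
    rw [lintegral_const_mul _ (hum.pow_const (6 * q)), ENNReal.mul_rpow_of_nonneg _ _ (by norm_num)]
    refine mul_le_mul' (le_of_eq ?_) (ENNReal.rpow_le_rpow hM (by norm_num))
    have h4 : ENNReal.ofReal K ^ 6 = (ENNReal.ofReal K ^ 3) ^ (2 : ℝ) := by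
      rw [ENNReal.rpow_two, ← pow_mul]
    rw [h4, ← ENNReal.rpow_mul]
    norm_num

theorem jg_bdW (q : ℕ) {K : ℝ} (hK : 0 ≤ K) : ∃ S : ℝ, 0 ≤ S ∧ ∀ d : ℕ, 24 * q ≤ d → 0 < d →
    ∀ p : ℝ, 0 ≤ p → 2 * d * p ≤ 12 / 11 → ∀ F : (Fin d → ℝ) → ℂ,
      (∀ᵐ k ∂(mu d), ‖F k‖ₑ ≤ ENNReal.ofReal K * (ENNReal.ofReal (uu k))⁻¹ ^ q) →
      ∫⁻ k, ‖(j0 p k : ℂ) * F k ^ 3‖ₑ ∂(mu d) ≤ ENNReal.ofReal (S / Real.sqrt d) := by
  obtain ⟨I, hI, hI2⟩ := int_pow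
  have h12 : ENNReal.ofReal K ^ 3 * (I ^ (4 * (6 * q))) ^ (1 / 2 : ℝ) ≠ ⊤ := by
    refine ENNReal.mul_ne_top (by finiteness) (ENNReal.rpow_ne_top_of_nonneg (by norm_num) ?_)
    finiteness
  set B := (ENNReal.ofReal K ^ 3 * (I ^ (4 * (6 * q))) ^ (1 / 2 : ℝ)).toReal with hB
  have hB0 : 0 ≤ B := ENNReal.toReal_nonneg
  refine ⟨2 * B, by positivity, ?_⟩
  intro d hd hd0 p h0 hl F hF
  refine (IntW_cs q h0 hd0 hl (hI2 (6 * q) d (by omega) hd0) hF).trans ?_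
  rw [← ENNReal.ofReal_toReal h12, ← hB, ← ENNReal.ofReal_mul (by positivity)]
  refine ENNReal.ofReal_le_ofReal ?_
  have hd1 : (0 : ℝ) < d := by exact_mod_cast hd0
  have hs : 0 < Real.sqrt d := Real.sqrt_pos.2 hd1
  have h1 : Real.sqrt d ≤ Real.sqrt (2 * d) := Real.sqrt_le_sqrt (by linarith)
  rw [div_mul_eq_mul_div]
  exact div_le_div_of_nonneg_left (by positivity) hs h1

end H4LW
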