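import Mathlib

/-!
PROJECT LE, block LW (captain helper4), job LW-NumR. Numbers only: the recursion for the transforms of `x_j^n t`.

PROOF. Put `B i := 2 ^ (i + 1) + 5` and define `A` by strong recursion: `A 0 := 5`,
`A n := 4 * (4 ^ n + Σ_{i=1}^n C(n,i) B i 2^i A (n - i))` (any generous choice; existence of a sequence is enough, so one may also prove by
strong induction on `n` that there is a constant `A_n` valid for all data, but then it must not depend on the data: define `A` first).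
Induction on `n`: `‖T n‖ ≤ (4/u) ‖N T n‖`, and every term of `N T n` is at most const `* r^(min n 2) / s^n`:
`X n`: `n = 1`: `r s ≤ 2 r / s` (`s^2 = u ≤ 2`); `n ≥ 2`: `r^2 ≤ r^2 2^n / s^n`, because `s ≤ 2`.
`Φ 1 T (n-1)`: `5 r s * A (n-1) r^(min (n-1) 2) / (s^2 s^(n-1)) = 5 A (n-1) r^(1 + min (n-1) 2) / s^n` and `1 + min (n-1) 2 ≥ min n 2`, `r ≤ 1`.
`Φ i T (n-i)`, `i ≥ 2`: `2^(i+1) r^2 * A (n-i) r^(..) / (s^2 s^(n-i)) ≤ 2^(i+1) r^2 A (n-i) s^(i-2) / s^n`, `s^(i-2) ≤ 2^i`, `min n 2 = 2`.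
-/

namespace H4LW

/-- The constants. -/
noncomputable def NumR_A : ℕ → ℝ
  | 0 => 5
  | (n + 1) => 4 * (4 ^ (n + 1) + ∑ i ∈ (Finset.Icc 1 (n + 1)).attach,
      ((n + 1).choose i.1 : ℝ) * ((2 ^ (i.1 + 1) + 5) * 2 ^ i.1 * NumR_A (n + 1 - i.1)))
decreasing_by
  have := Finset.mem_Icc.1 i.2
  omega

lemma NumR_A_zero : NumR_A 0 = 5 := by
  rw [NumR_A]

lemma NumR_A_succ (n : ℕ) : NumR_A (n + 1) = 4 * (4 ^ (n + 1) + ∑ i ∈ Finset.Icc 1 (n + 1),
      ((n + 1).choose i : ℝ) * ((2 ^ (i + 1) + 5) * 2 ^ i * NumR_A (n + 1 - i))) := by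
  rw [NumR_A]
  rw [Finset.sum_attach (Finset.Icc 1 (n + 1)) fun i =>
    ((n + 1).choose i : ℝ) * ((2 ^ (i + 1) + 5) * 2 ^ i * NumR_A (n + 1 - i))]

lemma NumR_A_nonneg (n : ℕ) : 0 ≤ NumR_A n := by
  induction n using Nat.strong_induction_on with
  | _ n ih =>
    cases n with
    | zero => rw [NumR_A_zero]; norm_num
    | succ n =>
      rw [NumR_A_succ]
      have : 0 ≤ ∑ i ∈ Finset.Icc 1 (n + 1),
          ((n + 1).choose i : ℝ) * ((2 ^ (i + 1) + 5) * 2 ^ i * NumR_A (n + 1 - i)) := by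
        refine Finset.sum_nonneg fun i hi => ?_
        have h1 := Finset.mem_Icc.1 hi
        have h2 := ih (n + 1 - i) (by omega)
        positivity
      positivity

/-- One term of the recursion. -/
lemma NumR_term {u s r a p t : ℝ} {n i : ℕ} (hs : 0 < s) (hu : s ^ 2 = u) (hu2 : u ≤ 2)
    (hr : 0 ≤ r) (hr1 : r ≤ 1) (ha : 0 ≤ a) (hi : 1 ≤ i) (hin : i ≤ n)
    (hp0 : 0 ≤ p) (h1 : i = 1 → p ≤ 5 * (r * s)) (h2 : 2 ≤ i → p ≤ 2 ^ (i + 1) * r ^ 2)
    (ht : t ≤ a * r ^ (min (n - i) 2) / (u * s ^ (n - i))) :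
    p * t ≤ (2 ^ (i + 1) + 5) * 2 ^ i * a * (r ^ (min n 2) / s ^ n) := by
  have hs2 : s ≤ 2 := by nlinarith
  have hs0 : s ≠ 0 := hs.ne'
  have hupos : 0 < u := by rw [← hu]; positivity
  have hstep : p * t ≤ p * (a * r ^ (min (n - i) 2) / (u * s ^ (n - i))) :=
    mul_le_mul_of_nonneg_left ht hp0
  refine hstep.trans ?_
  have hq0 : 0 ≤ a * r ^ (min (n - i) 2) / (u * s ^ (n - i)) := by positivity
  have hn0 : 0 ≤ r ^ (min n 2) / s ^ n := by positivity
  rcases Nat.lt_or_ge i 2 with h | h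
  · have hi1 : i = 1 := by omega
    subst hi1
    have h3 := mul_le_mul_of_nonneg_right (h1 rfl) hq0
    refine h3.trans ?_
    have h4 : 5 * (r * s) * (a * r ^ (min (n - 1) 2) / (u * s ^ (n - 1)))
        = 5 * a * (r ^ (1 + min (n - 1) 2) / s ^ n) := by
      obtain ⟨m, rfl⟩ : ∃ m, n = m + 1 := ⟨n - 1, by omega⟩
      rw [← hu, Nat.add_sub_cancel]
      field_simp
      ring
    rw [h4]
    have h5 : r ^ (1 + min (n - 1) 2) ≤ r ^ (min n 2) :=
      pow_le_pow_of_le_one hr hr1 (by omega)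
    have h6 : r ^ (1 + min (n - 1) 2) / s ^ n ≤ r ^ (min n 2) / s ^ n :=
      div_le_div_of_nonneg_right h5 (by positivity)
    calc 5 * a * (r ^ (1 + min (n - 1) 2) / s ^ n) ≤ 5 * a * (r ^ (min n 2) / s ^ n) :=
          mul_le_mul_of_nonneg_left h6 (by positivity)
      _ ≤ (2 ^ (1 + 1) + 5) * 2 ^ 1 * a * (r ^ (min n 2) / s ^ n) := by
          refine mul_le_mul_of_nonneg_right ?_ hn0
          refine mul_le_mul_of_nonneg_right ?_ ha
          norm_num
  · have h3 := mul_le_mul_of_nonneg_right (h2 h) hq0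
    refine h3.trans ?_
    have hmin : min n 2 = 2 := by omega
    rw [hmin]
    have h4 : 2 ^ (i + 1) * r ^ 2 * (a * r ^ (min (n - i) 2) / (u * s ^ (n - i)))
        = 2 ^ (i + 1) * (a * (r ^ (min (n - i) 2) * s ^ (i - 2))) * (r ^ 2 / s ^ n) := by
      have h5 : s ^ n = s ^ 2 * s ^ (n - i) * s ^ (i - 2) := by
        rw [← pow_add, ← pow_add]
        congr 1
        omega
      rw [h5, ← hu]
      field_simp
    rw [h4]
    refine mul_le_mul_of_nonneg_right ?_ (by positivity)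
    have h6 : r ^ (min (n - i) 2) ≤ 1 := pow_le_one₀ hr hr1
    have h7 : s ^ (i - 2) ≤ 2 ^ i := by
      calc s ^ (i - 2) ≤ 2 ^ (i - 2) := pow_le_pow_left₀ hs.le hs2 _
        _ ≤ 2 ^ i := pow_le_pow_right₀ (by norm_num) (by omega)
    have h8 : r ^ (min (n - i) 2) * s ^ (i - 2) ≤ 2 ^ i := by
      calc _ ≤ 1 * (2 : ℝ) ^ i := mul_le_mul h6 h7 (by positivity) (by norm_num)
        _ = _ := one_mul _
    calc 2 ^ (i + 1) * (a * (r ^ (min (n - i) 2) * s ^ (i - 2)))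
        ≤ 2 ^ (i + 1) * (a * 2 ^ i) := by
          refine mul_le_mul_of_nonneg_left ?_ (by positivity)
          exact mul_le_mul_of_nonneg_left h8 ha
      _ ≤ (2 ^ (i + 1) + 5) * 2 ^ i * a := by
          have : 0 ≤ 5 * ((2 : ℝ) ^ i * a) := by positivity
          nlinarith

theorem num_rec : ∃ A : ℕ → ℝ, (∀ n, 0 ≤ A n) ∧
    ∀ (M : ℕ) (T X Φ : ℕ → ℂ) (N : ℂ) (u s r : ℝ), 0 < s → s ^ 2 = u → u ≤ 2 → 0 ≤ r → r ≤ 1 →
      u / 4 ≤ ‖N‖ → ‖T 0‖ ≤ 5 / u →
      (∀ n, 1 ≤ n → n ≤ M → N * T n = X n + ∑ i ∈ Finset.Icc 1 n, (n.choose i : ℂ) * (Φ i * T (n - i))) →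
      (1 ≤ M → ‖X 1‖ ≤ r * s) → (∀ n, 2 ≤ n → n ≤ M → ‖X n‖ ≤ r ^ 2) →
      (1 ≤ M → ‖Φ 1‖ ≤ 5 * (r * s)) → (∀ i, 2 ≤ i → i ≤ M → ‖Φ i‖ ≤ 2 ^ (i + 1) * r ^ 2) →
      ∀ n ≤ M, ‖T n‖ ≤ A n * r ^ (min n 2) / (u * s ^ n) := by
  refine ⟨NumR_A, NumR_A_nonneg, ?_⟩
  intro M T X Φ N u s r hs hu hu2 hr hr1 hN hT0 hrec hX1 hX hP1 hP n
  have hupos : 0 < u := by rw [← hu]; positivity
  have hs2 : s ≤ 2 := by nlinarith
  induction n using Nat.strong_induction_on with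
  | _ n ih =>
    intro hn
    cases n with
    | zero =>
      rw [NumR_A_zero]
      simpa using hT0
    | succ n =>
      have h1 := hrec (n + 1) (by omega) hn
      have hXn : ‖X (n + 1)‖ ≤ 4 ^ (n + 1) * (r ^ (min (n + 1) 2) / s ^ (n + 1)) := by
        rcases Nat.eq_zero_or_pos n with h0 | h0
        · subst h0
          refine (hX1 hn).trans ?_
          have e1 : (4 : ℝ) ^ (0 + 1) * (r ^ (min (0 + 1) 2) / s ^ (0 + 1)) = 4 * r / s := by
            norm_num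
            ring
          rw [e1, le_div_iff₀ hs]
          nlinarith
        · refine (hX (n + 1) (by omega) hn).trans ?_
          have hmin : min (n + 1) 2 = 2 := by omega
          rw [hmin, ← mul_div_assoc, le_div_iff₀ (by positivity), mul_comm]
          refine mul_le_mul_of_nonneg_right ?_ (by positivity)
          exact pow_le_pow_left₀ hs.le (by linarith) _
      have hterm : ∀ i ∈ Finset.Icc 1 (n + 1),
          ‖((n + 1).choose i : ℂ) * (Φ i * T (n + 1 - i))‖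
            ≤ ((n + 1).choose i : ℝ) * ((2 ^ (i + 1) + 5) * 2 ^ i * NumR_A (n + 1 - i))
              * (r ^ (min (n + 1) 2) / s ^ (n + 1)) := by
        intro i hi
        have h2 := Finset.mem_Icc.1 hi
        rw [norm_mul, norm_mul, Complex.norm_natCast, mul_assoc]
        refine mul_le_mul_of_nonneg_left ?_ (by positivity)
        refine NumR_term hs hu hu2 hr hr1 (NumR_A_nonneg _) h2.1 h2.2 (norm_nonneg _) ?_ ?_ ?_
        · intro h3
          subst h3
          exact hP1 (by omega)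
        · intro h3
          exact hP i h3 (by omega)
        · exact ih (n + 1 - i) (by omega) (by omega)
      have h3 : ‖N * T (n + 1)‖ ≤ (4 ^ (n + 1) + ∑ i ∈ Finset.Icc 1 (n + 1),
          ((n + 1).choose i : ℝ) * ((2 ^ (i + 1) + 5) * 2 ^ i * NumR_A (n + 1 - i)))
            * (r ^ (min (n + 1) 2) / s ^ (n + 1)) := by
        rw [h1, add_mul, Finset.sum_mul]
        refine (norm_add_le _ _).trans (add_le_add hXn ?_)
        exact (norm_sum_le _ _).trans (Finset.sum_le_sum hterm)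
      rw [norm_mul] at h3
      rw [NumR_A_succ]
      set K : ℝ := 4 ^ (n + 1) + ∑ i ∈ Finset.Icc 1 (n + 1),
          ((n + 1).choose i : ℝ) * ((2 ^ (i + 1) + 5) * 2 ^ i * NumR_A (n + 1 - i)) with hK
      set R : ℝ := r ^ (min (n + 1) 2) with hR
      have h4 : u / 4 * ‖T (n + 1)‖ ≤ K * (R / s ^ (n + 1)) :=
        (mul_le_mul_of_nonneg_right hN (norm_nonneg _)).trans h3
      have h5 : 4 * K * R / (u * s ^ (n + 1)) = (K * (R / s ^ (n + 1))) / (u / 4) := by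
        field_simp
      rw [h5, le_div_iff₀ (by positivity), mul_comm]
      exact h4

end H4LW
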