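import Pool.Agent.H4.LW.XB
import Pool.Agent.H4.LW.NumR
import Pool.Agent.H4.LW.IntW

/-!
PROJECT LE, block LW (captain helper4). Assembly: the outputs for the weights `wm m`.
-/

namespace H4LW

open H5DF H95LBD H95LE H15LE MeasureTheory

variable {d : ℕ}

lemma InpW.wt {m : ℕ} {p : ℝ} {X : V d → ℝ} (h : InpW m d p X) : WM m (tr d p) := by
  refine (summable_gm h.fin).congr fun x => ?_
  unfold gm
  rw [abs_of_nonneg (tr_nonneg p x)]

/-- The equation for the transforms of `x_j^n t`. -/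
lemma InpW.eqTn {m n : ℕ} {p : ℝ} {X : V d → ℝ} (hm : 1 ≤ m) (h : InpW m d p X) (hn : n ≤ 2 * m)
    (j : Fin d) (k : Fin d → ℝ) :
    (1 - ft (sh p X) k) * ft (mn j n (tr d p)) k = ft (mn j n X) k +
      ∑ i ∈ Finset.Icc 1 n, (n.choose i : ℂ) *
        (ft (mn j i (sh p X)) k * ft (mn j (n - i) (tr d p)) k) := by
  have hs1 : ∀ i ≤ n, Summable (mn j i (sh p X)) := fun i hi =>
    summable_mn_sh j i p fun l hl => h.sX.mn j (by omega)
  have hs2 : ∀ i ≤ n, Summable (mn j i (tr d p)) := fun i hi => h.wt.mn j (by omega)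
  have e1 : mn j n (tr d p) = fun x => mn j n X x + mn j n (cr (sh p X) (tr d p)) x := by
    funext x
    have := congrFun (eqW hm h) x
    simp only [mn]
    rw [this, mul_add]
  have e2 : ft (mn j n (tr d p)) k = ft (mn j n X) k +
      ∑ i ∈ Finset.range (n + 1), (n.choose i : ℂ) *
        (ft (mn j i (sh p X)) k * ft (mn j (n - i) (tr d p)) k) := by
    calc ft (mn j n (tr d p)) k
        = ft (fun x => mn j n X x + mn j n (cr (sh p X) (tr d p)) x) k := by rw [← e1]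
      _ = _ := by
        rw [ft_add (h.sX.mn j hn) (summable_mn_cr j n hs1 hs2), ft_mn_cr j n hs1 hs2]
  have e3 : ∑ i ∈ Finset.range (n + 1), (n.choose i : ℂ) *
        (ft (mn j i (sh p X)) k * ft (mn j (n - i) (tr d p)) k) =
      ft (sh p X) k * ft (mn j n (tr d p)) k + ∑ i ∈ Finset.Icc 1 n, (n.choose i : ℂ) *
        (ft (mn j i (sh p X)) k * ft (mn j (n - i) (tr d p)) k) := by
    rw [Finset.sum_range_eq_add_Ico _ (by omega), mn_zero, Nat.choose_zero_right, Nat.cast_one,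
      one_mul, Nat.sub_zero]
    congr 1
  rw [e3] at e2
  linear_combination e2

lemma ft_gm {m : ℕ} {f : V d → ℝ} (hf : WM m f) (k : Fin d → ℝ) :
    ft (fun x => (wm m x : ℝ) * f x) k = ft f k + ∑ j, ft (mn j (2 * m) f) k := by
  unfold ft
  rw [← Summable.tsum_finsetSum fun j _ => summable_ft (hf.mn j le_rfl) k,
    ← (summable_ft hf.sum k).tsum_add (summable_sum fun j _ => summable_ft (hf.mn j le_rfl) k)]
  refine tsum_congr fun x => ?_
  simp only [wm_real]
  push_cast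
  rw [add_mul, one_mul, add_mul, Finset.sum_mul, Finset.sum_mul]
  congr 1
  refine Finset.sum_congr rfl fun j _ => ?_
  simp only [mn]
  push_cast
  ring

/-- The hypotheses of `num_rec` which do not depend on `k`. -/
lemma InpW.rd {m : ℕ} {p : ℝ} {X : V d → ℝ} (h : InpW m d p X) :
    0 ≤ 1 / Real.sqrt d ∧ 1 / Real.sqrt d ≤ 1 ∧ (1 / Real.sqrt d) ^ 2 = 1 / d := by
  have hd : (1 : ℝ) ≤ d := by exact_mod_cast h.d0
  have h1 : 1 ≤ Real.sqrt d := Real.one_le_sqrt.2 hd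
  refine ⟨by positivity, (div_le_one (by linarith)).2 h1, ?_⟩
  rw [div_pow, Real.sq_sqrt (by linarith), one_pow]

lemma sq_two_le {a b : ℝ} (hb : 0 ≤ b) (h : a ^ 2 ≤ 5 * b ^ 2) : a ≤ 5 / 2 * b := by
  apply le_of_sq_le_sq _ (by positivity)
  nlinarith

theorem InpW.t_bd : ∃ A : ℕ → ℝ, (∀ n, 0 ≤ A n) ∧ ∀ (m d : ℕ) (p : ℝ) (X : V d → ℝ), 1 ≤ m →
    InpW m d p X →
    (∀ (j : Fin d) (k : Fin d → ℝ), (∀ i, |k i| ≤ Real.pi) → 0 < uu k →
      ‖ft (mn j (2 * m) (tr d p)) k‖ ≤ A m * (1 / d) / uu k ^ (1 + m)) ∧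
    (∀ (j : Fin d), ‖ft (mn j (2 * m) (tr d p)) 0‖ ≤ A m * (1 / d) * chr d p ^ (1 + m)) := by
  obtain ⟨A, hA0, hA⟩ := num_rec
  refine ⟨fun m => A (2 * m), fun m => hA0 _, ?_⟩
  intro m d p X hm h
  have hI := h.inp hm
  have hdp : (0 : ℝ) < d := by exact_mod_cast h.d0
  obtain ⟨r0, r1, r2⟩ := h.rd
  have hX : ∀ (j : Fin d) (k : Fin d → ℝ) (n : ℕ), 2 ≤ n → n ≤ 2 * m →
      ‖ft (mn j n X) k‖ ≤ (1 / Real.sqrt d) ^ 2 := by
    intro j k n hn hn2
    refine (x_bd hm h (by omega) hn2 j k).trans ?_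
    rw [r2]
    gcongr
    linarith
  have hP : ∀ (j : Fin d) (k : Fin d → ℝ) (n : ℕ), 2 ≤ n → n ≤ 2 * m →
      ‖ft (mn j n (sh p X)) k‖ ≤ 2 ^ (n + 1) * (1 / Real.sqrt d) ^ 2 := by
    intro j k n hn hn2
    refine (phi_bd hm h (by omega) hn2 j k).trans (le_of_eq ?_)
    rw [r2]
    ring
  have hmin : min (2 * m) 2 = 2 := by omega
  constructor
  · intro j k hk hu
    have hs0 : 0 < Real.sqrt (uu k) := Real.sqrt_pos.2 hu
    have hs2 : Real.sqrt (uu k) ^ 2 = uu k := Real.sq_sqrt hu.le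
    have hkj : |k j| / d ≤ 5 / 2 * (1 / Real.sqrt d * Real.sqrt (uu k)) := by
      apply sq_two_le (by positivity)
      rw [mul_pow, r2, hs2]
      refine (hI.qr j hk).trans (le_of_eq ?_)
      ring
    have key := hA (2 * m) (fun n => ft (mn j n (tr d p)) k) (fun n => ft (mn j n X) k)
      (fun n => ft (mn j n (sh p X)) k) (1 - ft (sh p X) k) (uu k) (Real.sqrt (uu k))
      (1 / Real.sqrt d) hs0 hs2 (uu_le_two h.d0 k) r0 r1
      (by
        rw [ft_sh p h.sX.sum]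
        exact hI.nlow hk)
      (by
        rw [mn_zero]
        exact hI.t_le hk hu)
      (fun n _ hn => h.eqTn hm hn j k)
      (fun _ => by
        rw [mn_one]
        refine (hI.x1_le j k).trans ?_
        have : 0 ≤ 1 / Real.sqrt d * Real.sqrt (uu k) := by positivity
        linarith)
      (hX j k)
      (fun _ => by
        refine (phi_bd1 hm h j k).trans ?_
        have : 2 * |k j| / d = 2 * (|k j| / d) := by ring
        rw [this]
        linarith)
      (hP j k) (2 * m) le_rfl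
    rw [hmin, r2, pow_mul, hs2] at key
    refine key.trans (le_of_eq ?_)
    rw [pow_add, pow_one]
  · intro j
    have hc1 := hI.one_le_chr
    have hc0 : 0 < chr d p := by linarith
    set u := 1 / chr d p with hu
    have hu0 : 0 < u := by positivity
    have hu1 : u ≤ 1 := (div_le_one hc0).2 hc1
    have hs0 : 0 < Real.sqrt u := Real.sqrt_pos.2 hu0
    have hs2 : Real.sqrt u ^ 2 = u := Real.sq_sqrt hu0.le
    have hz : |(0 : Fin d → ℝ) j| = 0 := by simp
    have hN : u / 4 ≤ ‖1 - ft (sh p X) 0‖ := by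
      have h1 := hI.eqT 0
      rw [ft_zero (tr d p), hI.xr0 0, j0_zero] at h1
      have h2 := congrArg Complex.re h1
      simp only [Complex.ofReal_re, Complex.add_re, ← Complex.ofReal_mul,
        ← Complex.ofReal_add] at h2
      change chr d p = (ft X 0).re + (ft X 0).re * (2 * d * p * chr d p) at h2
      have h3 := abs_le.1 (hI.x_one 0)
      have h4 : 1 - 2 * d * p * (ft X 0).re = (ft X 0).re * u := by
        rw [hu]
        field_simp
        linarith
      rw [ft_sh p h.sX.sum, j0_zero, hI.xr0 0, ← Complex.ofReal_mul, ← Complex.ofReal_one,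
        ← Complex.ofReal_sub, Complex.norm_real, Real.norm_eq_abs, h4,
        abs_of_nonneg (mul_nonneg (by linarith) hu0.le)]
      nlinarith [h3.1]
    have hT : ‖ft (tr d p) 0‖ ≤ 5 / u := by
      rw [ft_zero, Complex.norm_real, Real.norm_eq_abs]
      change |chr d p| ≤ _
      rw [abs_of_pos hc0, hu, div_div_eq_mul_div, div_one]
      linarith
    have key := hA (2 * m) (fun n => ft (mn j n (tr d p)) 0) (fun n => ft (mn j n X) 0)
      (fun n => ft (mn j n (sh p X)) 0) (1 - ft (sh p X) 0) u (Real.sqrt u)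
      (1 / Real.sqrt d) hs0 hs2 (by linarith) r0 r1 hN
      (by
        rw [mn_zero]
        exact hT)
      (fun n _ hn => h.eqTn hm hn j 0)
      (fun _ => by
        rw [mn_one]
        refine (hI.x1_le j 0).trans ?_
        rw [hz, zero_div, zero_div]
        positivity)
      (hX j 0)
      (fun _ => by
        refine (phi_bd1 hm h j 0).trans ?_
        rw [hz, mul_zero, zero_div]
        positivity)
      (hP j 0) (2 * m) le_rfl
    rw [hmin, r2, pow_mul, hs2] at key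
    refine key.trans (le_of_eq ?_)
    rw [← pow_succ', add_comm 1 m, hu, one_div (chr d p), inv_pow, div_inv_eq_mul]

/-- The bound of the transform of the weighted two-point function. -/
theorem g_leW (m : ℕ) (hm : 1 ≤ m) : ∃ K : ℝ, 0 ≤ K ∧ ∀ (d : ℕ) (p : ℝ) (X : V d → ℝ),
    InpW m d p X →
    (∀ k : Fin d → ℝ, (∀ i, |k i| ≤ Real.pi) → 0 < uu k →
      ‖ft (gm m d p) k‖ ≤ K / uu k ^ (1 + m)) ∧
    ∑' x, gm m d p x ≤ K * chr d p ^ (1 + m) := by
  obtain ⟨A, hA0, hA⟩ := InpW.t_bd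
  refine ⟨5 * 2 ^ m + A m, by have := hA0 m; positivity, ?_⟩
  intro d p X h
  have hI := h.inp hm
  have hd : (0 : ℝ) < d := by exact_mod_cast h.d0
  obtain ⟨h1, h2⟩ := hA m d p X hm h
  have hft : ∀ k, ft (gm m d p) k = ft (tr d p) k + ∑ j, ft (mn j (2 * m) (tr d p)) k :=
    fun k => ft_gm h.wt k
  constructor
  · intro k hk hu
    rw [hft k]
    refine (norm_add_le _ _).trans ?_
    have h3 : ‖∑ j, ft (mn j (2 * m) (tr d p)) k‖ ≤ A m / uu k ^ (1 + m) := by
      refine (norm_sum_le _ _).trans ?_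
      calc ∑ j, ‖ft (mn j (2 * m) (tr d p)) k‖ ≤ ∑ _j : Fin d, A m * (1 / d) / uu k ^ (1 + m) :=
            Finset.sum_le_sum fun j _ => h1 j k hk hu
        _ = A m / uu k ^ (1 + m) := by simp; field_simp
    have h4 : ‖ft (tr d p) k‖ ≤ 5 * 2 ^ m / uu k ^ (1 + m) := by
      refine (hI.t_le hk hu).trans ?_
      rw [div_le_div_iff₀ hu (by positivity), pow_add, pow_one]
      have h5 : uu k ^ m ≤ 2 ^ m := pow_le_pow_left₀ hu.le (uu_le_two h.d0 k) m
      nlinarith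
    calc _ ≤ 5 * 2 ^ m / uu k ^ (1 + m) + A m / uu k ^ (1 + m) := add_le_add h4 h3
      _ = _ := by ring
  · have h3 : ‖ft (gm m d p) 0‖ ≤ chr d p + A m * chr d p ^ (1 + m) := by
      rw [hft 0]
      refine (norm_add_le _ _).trans ?_
      have h3 : ‖ft (tr d p) 0‖ = chr d p := by
        rw [ft_zero, Complex.norm_real, Real.norm_eq_abs]
        exact abs_of_nonneg (tsum_nonneg fun x => tr_nonneg p x)
      have h4 : ‖∑ j, ft (mn j (2 * m) (tr d p)) 0‖ ≤ A m * chr d p ^ (1 + m) := by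
        refine (norm_sum_le _ _).trans ?_
        calc ∑ j, ‖ft (mn j (2 * m) (tr d p)) 0‖
            ≤ ∑ _j : Fin d, A m * (1 / (d : ℝ)) * chr d p ^ (1 + m) :=
              Finset.sum_le_sum fun j _ => h2 j
          _ = A m * chr d p ^ (1 + m) := by simp; field_simp
      rw [h3]
      linarith
    rw [ft_zero, Complex.norm_real, Real.norm_eq_abs] at h3
    have h5 := le_abs_self (∑' x, gm m d p x)
    have h6 := hI.one_le_chr
    have h7 : chr d p ≤ chr d p ^ (1 + m) := by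
      calc chr d p = chr d p ^ 1 := (pow_one _).symm
        _ ≤ _ := pow_le_pow_right₀ h6 (by omega)
    have h8 : (1 : ℝ) ≤ 2 ^ m := one_le_pow₀ (by norm_num)
    have h9 : 0 ≤ chr d p ^ (1 + m) := by positivity
    nlinarith

lemma ae_leW {m : ℕ} {p K : ℝ} (hK : 0 ≤ K) (hd : 0 < d)
    (h : ∀ k : Fin d → ℝ, (∀ i, |k i| ≤ Real.pi) → 0 < uu k →
      ‖ft (gm m d p) k‖ ≤ K / uu k ^ (1 + m)) :
    ∀ᵐ k ∂(mu d), ‖ft (gm m d p) k‖ₑ ≤
      ENNReal.ofReal K * (ENNReal.ofReal (uu k))⁻¹ ^ (1 + m) := by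
  filter_upwards [mu_ae_cube (d := d), mu_ae_ne hd] with k hk hk0
  have hu := uu_pos hd hk hk0
  rw [← ENNReal.ofReal_inv_of_pos hu, ← ENNReal.ofReal_pow (by positivity),
    ← ENNReal.ofReal_mul hK, ← ofReal_norm]
  refine ENNReal.ofReal_le_ofReal ((h k hk hu).trans (le_of_eq ?_))
  rw [inv_pow, div_eq_mul_inv]

theorem four_oneW (m : ℕ) (hm : 1 ≤ m) : ∃ K0 : ℝ, 2 ≤ K0 ∧ ∀ b0 : ℝ, 0 < b0 → ∃ d0 : ℕ,
    ∀ d, d0 ≤ d → ∀ (p : ℝ) (X : V d → ℝ), InpW m d p X →
      H95LE.sq (gw (wm m : V d → ℕ) p) ≤ ENNReal.ofReal (K0 / 2) ∧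
      ∀ x, jg p (gw (wm m : V d → ℕ) p) x ≤ ENNReal.ofReal (b0 / 2) := by
  obtain ⟨K, hK, hg⟩ := g_leW m hm
  obtain ⟨S, hS, h4⟩ := sq_bdW (1 + m) hK
  obtain ⟨S', hS', h3⟩ := jg_bdW (1 + m) hK
  refine ⟨2 * S + 2, by linarith, ?_⟩
  intro b0 hb0
  obtain ⟨n, hn⟩ := exists_nat_ge ((2 * S' / b0) ^ 2)
  refine ⟨max (24 * (1 + m)) n, ?_⟩
  intro d hd p X h
  have hd48 : 24 * (1 + m) ≤ d := (le_max_left _ _).trans hd
  have hdn : n ≤ d := (le_max_right _ _).trans hd
  have hae := ae_leW hK h.d0 (hg d p X h).1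
  constructor
  · refine (sqW h.fin).trans ((h4 d (by omega) h.d0 _ hae).trans ?_)
    refine ENNReal.ofReal_le_ofReal ?_
    linarith
  · intro x
    refine (jgW h.p0 h.fin x).trans ((h3 d (by omega) h.d0 p h.p0 (h.inp hm).lam.1 _ hae).trans ?_)
    refine ENNReal.ofReal_le_ofReal ?_
    have hd0 : (0 : ℝ) < d := by exact_mod_cast h.d0
    have hs : 0 < Real.sqrt d := Real.sqrt_pos.2 hd0
    have h1 : 2 * S' / b0 ≤ Real.sqrt d := by
      refine Real.le_sqrt_of_sq_le ?_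
      have : (n : ℝ) ≤ d := by exact_mod_cast hdn
      linarith
    rw [div_le_iff₀ hb0] at h1
    rw [div_le_div_iff₀ hs (by norm_num)]
    linarith

theorem four_twoW (m : ℕ) (hm : 1 ≤ m) : ∃ C : ℝ, 0 ≤ C ∧ ∀ (d : ℕ) (p : ℝ) (X : V d → ℝ),
    InpW m d p X → 2 * d * p ≤ 12 / 11 ∧
      ∑' x : V d, gw (wm m) p x ≤ ENNReal.ofReal C * (∑' x, tau d p x) ^ (1 + m) := by
  obtain ⟨K, hK, hg⟩ := g_leW m hm
  refine ⟨K, hK, ?_⟩
  intro d p X h
  have hI := h.inp hm
  refine ⟨hI.lam.1, ?_⟩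
  have h1 : ∑' x : V d, gw (wm m) p x = ENNReal.ofReal (∑' x, gm m d p x) := by
    rw [ENNReal.ofReal_tsum_of_nonneg (gm_nonneg m p) (summable_gm h.fin)]
    exact tsum_congr fun x => gw_eqW h.fin x
  have h2 : ∑' x, tau d p x = ENNReal.ofReal (chr d p) := by
    unfold chr
    rw [ENNReal.ofReal_tsum_of_nonneg (tr_nonneg p) hI.ws.sum]
    exact tsum_congr fun x => tau_eq hI.fin x
  rw [h1, h2, ← ENNReal.ofReal_pow (by have := hI.one_le_chr; linarith),
    ← ENNReal.ofReal_mul hK]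
  exact ENNReal.ofReal_le_ofReal (hg d p X h).2

end H4LW
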