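import Pool.Agent.H4.LW.FinW
import Pool.Agent.H95.LE.LaceW

/-!
PROJECT LE, block LW (captain helper4). The inputs of the Fourier block from the lace expansion.
-/

namespace H4LW

open H5DF H95LBD H95LE H15LE MeasureTheory

variable {d : ℕ}

theorem inpW_of_lace (m : ℕ) (hm : 1 ≤ m) (hd : 0 < d) (p : ℝ) (h0 : 0 ≤ p) (h1 : p ≤ 1)
    (hfin : ∑' x : V d, gw (wm m) p x ≠ ⊤) (K be : ℝ) (hK0 : 0 ≤ K) (hbe0 : 0 ≤ be)
    (hK : H95LE.sq (gw (wm m : V d → ℕ) p) ≤ ENNReal.ofReal K)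
    (hbe : ∀ x, jg p (gw (wm m : V d → ℕ) p) x ≤ ENNReal.ofReal be)
    (hs : 16 * ((4 ^ m : ℕ) : ℝ) ^ 4 * K * be ≤ 1)
    (hs2 : (1 + 16 * ((4 ^ m : ℕ) : ℝ) ^ 5 * K ^ 3) * be ≤ 1 / 12) : InpW m d p (lacX d p) := by
  obtain ⟨h2, h3, h4⟩ := laceW (wm_wt (d := d) m hm) p h0 h1 hfin K be hK0 hbe0 hK hbe hs
  exact ⟨hd, h0, h1, hfin, h2, h3.trans hs2, h4⟩

/-- One step of the bootstrap. For every `m` there is `K0 ≥ 2` and, for every small enough `b0`, a dimension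
`d0` such that for `d ≥ d0` the bounds `K0`, `b0` imply the bounds `K0 / 2`, `b0 / 2`, and the inputs `InpW`. -/
theorem boot_step (m : ℕ) (hm : 1 ≤ m) : ∃ K0 b1 : ℝ, 2 ≤ K0 ∧ 0 < b1 ∧ ∀ b0 : ℝ, 0 < b0 → b0 ≤ b1 →
    ∃ d0 : ℕ, 0 < d0 ∧ ∀ d, d0 ≤ d → ∀ p : ℝ, 0 ≤ p → p ≤ 1 → ∑' x : V d, gw (wm m) p x ≠ ⊤ →
      H95LE.sq (gw (wm m : V d → ℕ) p) ≤ ENNReal.ofReal K0 →
      (∀ x, jg p (gw (wm m : V d → ℕ) p) x ≤ ENNReal.ofReal b0) →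
      InpW m d p (lacX d p) ∧ H95LE.sq (gw (wm m : V d → ℕ) p) ≤ ENNReal.ofReal (K0 / 2) ∧
        ∀ x, jg p (gw (wm m : V d → ℕ) p) x ≤ ENNReal.ofReal (b0 / 2) := by
  obtain ⟨K0, hK0, hF⟩ := four_oneW m hm
  have hc : (0 : ℝ) < ((4 ^ m : ℕ) : ℝ) := by positivity
  set c : ℝ := ((4 ^ m : ℕ) : ℝ) with hcdef
  have hA : 0 < 16 * c ^ 4 * K0 := by positivity
  have hB : 0 < 1 + 16 * c ^ 5 * K0 ^ 3 := by positivity
  refine ⟨K0, min (1 / (16 * c ^ 4 * K0)) (1 / (12 * (1 + 16 * c ^ 5 * K0 ^ 3))), hK0,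
    lt_min (by positivity) (by positivity), ?_⟩
  intro b0 hb0 hb1
  obtain ⟨d0, hd0⟩ := hF b0 hb0
  refine ⟨max d0 1, by omega, ?_⟩
  intro d hd p h0 h1 hfin hsq hjg
  have hd1 : 0 < d := by omega
  have e1 : 16 * c ^ 4 * K0 * b0 ≤ 1 := by
    have := hb1.trans (min_le_left _ _)
    rw [le_div_iff₀ hA] at this
    linarith
  have e2 : (1 + 16 * c ^ 5 * K0 ^ 3) * b0 ≤ 1 / 12 := by
    have := hb1.trans (min_le_right _ _)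
    rw [le_div_iff₀ (by positivity)] at this
    linarith
  have hI := inpW_of_lace m hm hd1 p h0 h1 hfin K0 b0 (by linarith) hb0.le hsq hjg e1 e2
  exact ⟨hI, hd0 d (by omega) p (lacX d p) hI⟩

end H4LW
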