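import Pool.Agent.H15.LE.Conv
import Pool.Agent.H4.LW.Def

/-!
PROJECT LE, block LW (captain helper4), job LW-Leib. Leibniz formula for convolutions.

PROOF. `mn_cr`: `(x j)^n = Σ C(n,i) (y j)^i ((x - y) j)^(n-i)` (`add_pow`, `(x j) = (y j) + ((x - y) j)`), multiply by
`f y * g (x - y)` and sum over `y`: finite sum of `n + 1` summable families (`summable_cr_term`), `Summable.tsum_finsetSum`.
`ft_mn_cr`: transform of a finite sum (induction with `ft_add`, or unfold `ft` and `Summable.tsum_finsetSum`), `ft_smul`, `ft_cr`.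
-/

namespace H4LW

open H5DF H95LBD H95LE H15LE MeasureTheory

variable {d : ℕ}

lemma Leib_term (j : Fin d) (n : ℕ) (f g : V d → ℝ) (x y : V d) :
    (x j : ℝ) ^ n * (f y * g (x - y)) = ∑ i ∈ Finset.range (n + 1),
      (n.choose i : ℝ) * (mn j i f y * mn j (n - i) g (x - y)) := by
  have h1 : (x j : ℝ) = (y j : ℝ) + ((x - y) j : ℝ) := by
    rw [Pi.sub_apply]
    push_cast
    ring
  rw [h1, add_pow, Finset.sum_mul]
  refine Finset.sum_congr rfl fun i _ => ?_
  unfold mn
  ring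

theorem mn_cr (j : Fin d) (n : ℕ) {f g : V d → ℝ} (hf : ∀ i ≤ n, Summable (mn j i f))
    (hg : ∀ i ≤ n, Summable (mn j i g)) :
    mn j n (cr f g) = fun x => ∑ i ∈ Finset.range (n + 1),
      (n.choose i : ℝ) * cr (mn j i f) (mn j (n - i) g) x := by
  funext x
  have h0 : mn j n (cr f g) x = ∑' y, (x j : ℝ) ^ n * (f y * g (x - y)) := by
    rw [tsum_mul_left]
    rfl
  rw [h0]
  simp only [Leib_term]
  rw [Summable.tsum_finsetSum]
  · refine Finset.sum_congr rfl fun i _ => ?_
    rw [tsum_mul_left]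
    rfl
  · intro i hi
    have hi' : i ≤ n := by
      have := Finset.mem_range.1 hi
      omega
    exact (summable_cr_term (hf i hi') (hg (n - i) (Nat.sub_le _ _)) x).mul_left _

theorem summable_mn_cr (j : Fin d) (n : ℕ) {f g : V d → ℝ} (hf : ∀ i ≤ n, Summable (mn j i f))
    (hg : ∀ i ≤ n, Summable (mn j i g)) : Summable (mn j n (cr f g)) := by
  rw [mn_cr j n hf hg]
  refine summable_sum fun i hi => ?_
  have hi' : i ≤ n := by
    have := Finset.mem_range.1 hi
    omega
  exact (summable_cr (hf i hi') (hg (n - i) (Nat.sub_le _ _))).mul_left _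

lemma Leib_ft_sum {ι : Type*} (s : Finset ι) (F : ι → V d → ℝ) (hF : ∀ i ∈ s, Summable (F i))
    (k : Fin d → ℝ) : ft (fun x => ∑ i ∈ s, F i x) k = ∑ i ∈ s, ft (F i) k := by
  unfold ft
  rw [← Summable.tsum_finsetSum fun i hi => summable_ft (hF i hi) k]
  refine tsum_congr fun x => ?_
  rw [Complex.ofReal_sum, Finset.sum_mul]

theorem ft_mn_cr (j : Fin d) (n : ℕ) {f g : V d → ℝ} (hf : ∀ i ≤ n, Summable (mn j i f))
    (hg : ∀ i ≤ n, Summable (mn j i g)) (k : Fin d → ℝ) :
    ft (mn j n (cr f g)) k = ∑ i ∈ Finset.range (n + 1),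
      (n.choose i : ℂ) * (ft (mn j i f) k * ft (mn j (n - i) g) k) := by
  rw [mn_cr j n hf hg]
  have hi' : ∀ i ∈ Finset.range (n + 1), i ≤ n := fun i hi => by
    have := Finset.mem_range.1 hi
    omega
  have hS : ∀ i ∈ Finset.range (n + 1), Summable fun x => (n.choose i : ℝ) * cr (mn j i f) (mn j (n - i) g) x :=
    fun i hi => (summable_cr (hf i (hi' i hi)) (hg (n - i) (Nat.sub_le _ _))).mul_left _
  rw [Leib_ft_sum _ (fun i x => (n.choose i : ℝ) * cr (mn j i f) (mn j (n - i) g) x) hS k]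
  refine Finset.sum_congr rfl fun i hi => ?_
  rw [ft_smul, ft_cr (hf i (hi' i hi)) (hg (n - i) (Nat.sub_le _ _))]
  push_cast
  ring

end H4LW
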