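import Pool.Agent.H15.LE.Brg
import Pool.Agent.H15.LE.Shf
import Pool.Agent.H15.LE.Inv
import Pool.Agent.H4.LW.Leib

/-!
PROJECT LE, block LW (captain helper4), job LW-Jf. The step function `J = jf d p` and the equation `t = X + (J * X) * t`.

PROOF. `jf` has finite support (the `2 d` steps), so everything is a finite sum over `s : Dir d`. `sh_eq`:
`cr (jf d p) f x = Σ_y Σ_s [y = step s] p f (x - y)` (exchange a finite sum and `tsum`, `tsum_ite_eq`). `ft_mn_jf` in the same way.
`jf_zero`: `Σ_s ch k (step s) = Σ_i 2 cos (k i)` (`Fintype.sum_prod_type`, `Fintype.sum_bool`; see H15/LE/Shf.lean, which may be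
imported: from `ft_sh` and `sh_eq`). `jf_bd`, `jf_bd1`: for `n ≥ 1` only `s = (j, true)` and `s = (j, false)` have `(step s) j ≠ 0`
(`= 1, -1`), so the sum is `p (e^{i k_j} + (-1)^n e^{-i k_j})`, norm `≤ 2 p`, and for `n = 1` it is `2 p i sin (k_j)`,
`|sin a| ≤ |a|`. `eqW`: the double sum over `(y, s)` of `X y * p * t (x - y - step s)` is absolutely summable (as in `eq_real` of
H15/LE/Brg.lean); put `z = y + step s`: `= Σ_z (Σ_s p X (z - step s)) t (x - z)`. It can also be deduced from `eq_real` by `ft_inj`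
or by commutativity and associativity of `cr` (`sh = cr (jf)`).
-/

namespace H4LW

open H5DF H95LBD H95LE H15LE MeasureTheory

variable {d : ℕ}

lemma Jf_hasSum (p : ℝ) (F : V d → ℝ) :
    HasSum (fun x => jf d p x * F x) (∑ s : Dir d, p * F (step s)) := by
  have h : ∀ s ∈ (Finset.univ : Finset (Dir d)),
      HasSum (fun x => (if x = step s then p else 0) * F x) (p * F (step s)) := by
    intro s _
    have h1 := hasSum_single (f := fun x => (if x = step s then p else 0) * F x) (step s)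
      (fun x hx => by rw [if_neg hx, zero_mul])
    rwa [if_pos rfl] at h1
  have h2 := hasSum_sum h
  refine h2.congr_fun ?_
  intro x
  unfold jf
  rw [Finset.sum_mul]

lemma Jf_hasSumC (p : ℝ) (F : V d → ℂ) :
    HasSum (fun x => ((jf d p x : ℝ) : ℂ) * F x) (∑ s : Dir d, (p : ℂ) * F (step s)) := by
  have h : ∀ s ∈ (Finset.univ : Finset (Dir d)),
      HasSum (fun x => (if x = step s then (p : ℂ) else 0) * F x) ((p : ℂ) * F (step s)) := by
    intro s _
    have h1 := hasSum_single (f := fun x => (if x = step s then (p : ℂ) else 0) * F x) (step s)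
      (fun x hx => by rw [if_neg hx, zero_mul])
    rwa [if_pos rfl] at h1
  have h2 := hasSum_sum h
  refine h2.congr_fun ?_
  intro x
  unfold jf
  rw [Complex.ofReal_sum, Finset.sum_mul]
  refine Finset.sum_congr rfl fun s _ => ?_
  by_cases hx : x = step s
  · rw [if_pos hx, if_pos hx]
  · rw [if_neg hx, if_neg hx, Complex.ofReal_zero]

theorem sh_eq (p : ℝ) (f : V d → ℝ) : sh p f = cr (jf d p) f := by
  funext x
  unfold sh cr
  exact (Jf_hasSum p fun y => f (x - y)).tsum_eq.symm

lemma summable_jf (j : Fin d) (n : ℕ) (p : ℝ) : Summable (mn j n (jf d p)) := by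
  refine (Jf_hasSum p fun x => (x j : ℝ) ^ n).summable.congr fun x => ?_
  rw [mn, mul_comm]

theorem ft_mn_jf (j : Fin d) (n : ℕ) (p : ℝ) (k : Fin d → ℝ) :
    ft (mn j n (jf d p)) k = ∑ s : Dir d, (p : ℂ) * ((step s : V d) j : ℂ) ^ n * ch k (step s) := by
  unfold ft
  have h := (Jf_hasSumC p fun x : V d => ((x j : ℂ)) ^ n * ch k x).tsum_eq
  calc ∑' x, ((mn j n (jf d p) x : ℝ) : ℂ) * ch k x
      = ∑' x, ((jf d p x : ℝ) : ℂ) * ((x j : ℂ) ^ n * ch k x) := by
        refine tsum_congr fun x => ?_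
        unfold mn
        push_cast
        ring
    _ = ∑ s : Dir d, (p : ℂ) * (((step s : V d) j : ℂ) ^ n * ch k (step s)) := h
    _ = _ := Finset.sum_congr rfl fun s _ => by ring

theorem jf_zero (j : Fin d) (p : ℝ) (k : Fin d → ℝ) : ft (mn j 0 (jf d p)) k = (j0 p k : ℂ) := by
  rw [ft_mn_jf, ← shf_s0]
  refine Finset.sum_congr rfl fun s _ => ?_
  rw [pow_zero, mul_one, mul_one]

theorem jf_bd (j : Fin d) {n : ℕ} (hn : 1 ≤ n) {p : ℝ} (h0 : 0 ≤ p) (k : Fin d → ℝ) :
    ‖ft (mn j n (jf d p)) k‖ ≤ 2 * p := by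
  rw [ft_mn_jf, Fintype.sum_prod_type, Finset.sum_eq_single j]
  · rw [Fintype.sum_bool]
    have h1 : ∀ b : Bool, ‖(p : ℂ) * ((step ((j, b) : Dir d) : V d) j : ℂ) ^ n *
        ch k (step (j, b))‖ = p := by
      intro b
      have h2 : ‖((step ((j, b) : Dir d) : V d) j : ℂ)‖ = 1 := by
        cases b <;> simp [step]
      rw [norm_mul, norm_mul, norm_ch, norm_pow, h2, one_pow, mul_one, mul_one,
        Complex.norm_real, Real.norm_eq_abs, abs_of_nonneg h0]
    refine (norm_add_le _ _).trans ?_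
    rw [h1, h1]
    linarith
  · intro i _ hi
    have h3 : ∀ b : Bool, ((step ((i, b) : Dir d) : V d) j : ℂ) = 0 := by
      intro b
      have hi' : j ≠ i := fun e => hi e.symm
      simp [step, hi']
    rw [Fintype.sum_bool, h3, h3, zero_pow (by omega)]
    simp
  · intro h
    exact absurd (Finset.mem_univ j) h

theorem jf_bd1 (j : Fin d) {p : ℝ} (h0 : 0 ≤ p) (k : Fin d → ℝ) :
    ‖ft (mn j 1 (jf d p)) k‖ ≤ 2 * p * |k j| := by
  have h : ft (mn j 1 (jf d p)) k = j1 p j k := by
    rw [ft_mn_jf, ← shf_s1]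
    refine Finset.sum_congr rfl fun s _ => ?_
    push_cast
    ring
  rw [h]
  unfold j1
  rw [norm_mul, Complex.norm_I, mul_one, Complex.norm_real, Real.norm_eq_abs, abs_mul,
    abs_of_nonneg (by positivity)]
  exact mul_le_mul_of_nonneg_left Real.abs_sin_le_abs (by positivity)

theorem summable_mn_sh (j : Fin d) (n : ℕ) (p : ℝ) {f : V d → ℝ}
    (hf : ∀ i ≤ n, Summable (mn j i f)) : Summable (mn j n (sh p f)) := by
  rw [sh_eq]
  exact summable_mn_cr j n (fun i _ => summable_jf j i p) hf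

theorem ft_mn_sh (j : Fin d) (n : ℕ) (p : ℝ) {f : V d → ℝ} (hf : ∀ i ≤ n, Summable (mn j i f))
    (k : Fin d → ℝ) :
    ft (mn j n (sh p f)) k = ∑ i ∈ Finset.range (n + 1),
      (n.choose i : ℂ) * (ft (mn j i (jf d p)) k * ft (mn j (n - i) f) k) := by
  rw [sh_eq]
  exact ft_mn_cr j n (fun i _ => summable_jf j i p) hf k

theorem eqW {m : ℕ} {p : ℝ} {X : V d → ℝ} (hm : 1 ≤ m) (h : InpW m d p X) :
    tr d p = fun x => X x + cr (sh p X) (tr d p) x := by
  have hI := h.inp hm
  have hX : Summable X := hI.sX.sum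
  have ht : Summable (tr d p) := (ws_tr hI.fin).sum
  have e : cr X (sh p (tr d p)) = cr (sh p X) (tr d p) := by
    refine ft_inj (summable_cr hX (summable_sh p ht)) (summable_cr (summable_sh p hX) ht)
      fun k => ?_
    rw [ft_cr hX (summable_sh p ht), ft_cr (summable_sh p hX) ht, ft_sh p ht, ft_sh p hX]
    ring
  rw [← e]
  exact eq_real hI

end H4LW
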