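import Pool.Agent.H4.LW.CritW
import Pool.Agent.H5.CG.Defs
import Pool.Agent.H5.CF.Ind
import Pool.Agent.H5.DF.Energy2

/-!
PROJECT LE / CG (MP_0d9ad5_pr, notes 2744, 2748), captain helper4. The rough inputs (K2), (K3), (K3') of the chain flow proof
from the estimates for the weight `wm 8`.
-/

namespace H4LW

open H5DF H95LBD H95LE MeasureTheory
open scoped ENNReal

variable {d : ℕ}

lemma rgh_cv_w {w : V d → ℕ} {c : ℕ} (hw : Wt w c) (f h : V d → ℝ≥0∞) (z : V d) :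
    (w z : ℝ≥0∞) * cv f h z ≤
      c * cv (fun x => (w x : ℝ≥0∞) * f x) (fun x => (w x : ℝ≥0∞) * h x) z := by
  unfold cv
  rw [← ENNReal.tsum_mul_left, ← ENNReal.tsum_mul_left]
  refine ENNReal.tsum_le_tsum fun y => ?_
  have h1 := hw.add y (z - y)
  rw [add_sub_cancel] at h1
  have h2 : (w z : ℝ≥0∞) ≤ (c : ℝ≥0∞) * w y * w (z - y) := by exact_mod_cast h1
  calc (w z : ℝ≥0∞) * (f y * h (z - y)) ≤ ((c : ℝ≥0∞) * w y * w (z - y)) * (f y * h (z - y)) :=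
        mul_le_mul' h2 le_rfl
    _ = _ := by ring

lemma rgh_ab (a b : ℝ≥0∞) : a * b ≤ a * a + b * b := by
  rcases le_total a b with h | h
  · exact (mul_le_mul' h le_rfl).trans le_add_self
  · exact (mul_le_mul' le_rfl h).trans le_self_add

lemma rgh_sup {h : V d → ℝ≥0∞} (he : ∀ x, h (-x) = h x) (z : V d) :
    cv h h z ≤ 2 * cv h h 0 := by
  have e0 : cv h h 0 = ∑' y, h y * h y := by
    unfold cv
    refine tsum_congr fun y => ?_
    rw [zero_sub, he]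
  have e1 : ∑' y, h (z - y) * h (z - y) = ∑' y, h y * h y :=
    (Equiv.subLeft z).tsum_eq (fun y => h y * h y)
  calc cv h h z ≤ ∑' y, (h y * h y + h (z - y) * h (z - y)) :=
        ENNReal.tsum_le_tsum fun y => rgh_ab _ _
    _ = 2 * cv h h 0 := by rw [ENNReal.tsum_add, e1, e0, two_mul]

lemma rgh_smul (c : ℝ≥0∞) (f h : V d → ℝ≥0∞) (z : V d) :
    cv (fun x => c * f x) (fun x => c * h x) z = c ^ 2 * cv f h z := by
  unfold cv
  rw [← ENNReal.tsum_mul_left]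
  refine tsum_congr fun y => ?_
  ring

lemma rgh_t2 {w : V d → ℕ} {c : ℕ} (hw : Wt w c) (p : ℝ) (z : V d) :
    (w z : ℝ≥0∞) * CG.t2 d p z ≤ c * cv (gw w p) (gw w p) z :=
  rgh_cv_w hw (tau d p) (tau d p) z

/-- Rough decay of `t4`. -/
theorem rgh_t4 {w : V d → ℕ} {c : ℕ} (hw : Wt w c) {p : ℝ} (h0 : 0 ≤ p) (h1 : p ≤ 1) (z : V d) :
    (w z : ℝ≥0∞) * CG.t4 d p z ≤ 2 * (c : ℝ≥0∞) ^ 3 * H95LE.sq (gw w p) := by
  have hev : ∀ x, gw w p (-x) = gw w p x := gw_neg hw p h0 h1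
  calc (w z : ℝ≥0∞) * CG.t4 d p z
      ≤ c * cv (fun x => (w x : ℝ≥0∞) * CG.t2 d p x) (fun x => (w x : ℝ≥0∞) * CG.t2 d p x) z :=
        rgh_cv_w hw (CG.t2 d p) (CG.t2 d p) z
    _ ≤ c * cv (fun x => (c : ℝ≥0∞) * cv (gw w p) (gw w p) x)
          (fun x => (c : ℝ≥0∞) * cv (gw w p) (gw w p) x) z :=
        mul_le_mul' le_rfl (cv_mono (rgh_t2 hw p) (rgh_t2 hw p) z)
    _ = (c : ℝ≥0∞) ^ 3 * cv (cv (gw w p) (gw w p)) (cv (gw w p) (gw w p)) z := by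
        rw [rgh_smul]
        ring
    _ ≤ (c : ℝ≥0∞) ^ 3 * (2 * cv (cv (gw w p) (gw w p)) (cv (gw w p) (gw w p)) 0) :=
        mul_le_mul' le_rfl (rgh_sup (cv_even hev hev) z)
    _ = 2 * (c : ℝ≥0∞) ^ 3 * H95LE.sq (gw w p) := by
        rw [cv_assoc]
        unfold H95LE.sq
        ring

/-- The weighted open triangle. -/
theorem rgh_tri {w : V d → ℕ} {c : ℕ} (hw : Wt w c) {p : ℝ} (h0 : 0 ≤ p) (h1 : p ≤ 1) :
    ∑' z : V d, (w z : ℝ≥0∞) * (tau d p z * CG.t2 d p z) ≤ H95LE.sq (gw w p) := by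
  have hev : ∀ x, gw w p (-x) = gw w p x := gw_neg hw p h0 h1
  have hg : ∀ x : V d, tau d p x ≤ gw w p x := tau_le_gw hw p
  calc ∑' z : V d, (w z : ℝ≥0∞) * (tau d p z * CG.t2 d p z)
      ≤ ∑' z : V d, gw w p z * cv (gw w p) (gw w p) (0 - z) := by
        refine ENNReal.tsum_le_tsum fun z => ?_
        rw [← mul_assoc, zero_sub, cv_even hev hev]
        exact mul_le_mul' le_rfl (cv_mono hg hg z)
    _ = cv (gw w p) (cv (gw w p) (gw w p)) 0 := rfl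
    _ ≤ _ := by
        unfold H95LE.sq
        exact le_cv (gw_zero hw p h0 h1).ge 0

lemma nm_pow_le (m : ℕ) (hm : 1 ≤ m) (x : V d) : (nm x : ℝ) ^ (2 * m) ≤ (wm m x : ℝ) := by
  by_cases hd : (Finset.univ : Finset (Fin d)).Nonempty
  · obtain ⟨i, -, hi⟩ := Finset.exists_mem_eq_sup Finset.univ hd fun i => (x i).natAbs
    have h1 : nm x = (x i).natAbs := hi
    have h2 := top_le_wm m i x
    have h3 : (nm x : ℝ) = |(x i : ℝ)| := by
      rw [h1, Nat.cast_natAbs, Int.cast_abs]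
    rw [h3]
    exact h2
  · rw [Finset.not_nonempty_iff_eq_empty] at hd
    have h1 : nm x = 0 := by simp [nm, hd]
    rw [h1, Nat.cast_zero, zero_pow (by omega)]
    exact Nat.cast_nonneg _

lemma one_nm_pow_le (m : ℕ) (hm : 1 ≤ m) (x : V d) :
    (1 + (nm x : ℝ)) ^ (2 * m) ≤ 2 ^ (2 * m) * (wm m x : ℝ) := by
  rcases Nat.eq_zero_or_pos (nm x) with h | h
  · rw [h, Nat.cast_zero, add_zero, one_pow]
    have h1 := one_le_wm m x
    have h2 : (1 : ℝ) ≤ 2 ^ (2 * m) := one_le_pow₀ (by norm_num)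
    nlinarith
  · have h1 : (1 : ℝ) ≤ nm x := by exact_mod_cast h
    calc (1 + (nm x : ℝ)) ^ (2 * m) ≤ (2 * (nm x : ℝ)) ^ (2 * m) :=
          pow_le_pow_left₀ (by linarith) (by linarith) _
      _ = 2 ^ (2 * m) * (nm x : ℝ) ^ (2 * m) := mul_pow _ _ _
      _ ≤ _ := mul_le_mul_of_nonneg_left (nm_pow_le m hm x) (by positivity)

/-- The rough inputs (K2), (K3), (K3'), uniformly in `p < pcc d`. -/
theorem rough_lw : ∃ A : ℝ, 1 ≤ A ∧ ∃ d0 : ℕ, ∀ d, d0 ≤ d → ∀ p : ℝ, 0 ≤ p → p < SH.pcc d →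
    ∑' x : V d, ENNReal.ofReal ((nm x : ℝ) ^ 16) * tau d p x ≤
      ENNReal.ofReal A * (∑' x : V d, tau d p x) ^ 9 ∧
    (∀ z : V d, CG.t4 d p z ≤ ENNReal.ofReal (A / (1 + (nm z : ℝ)) ^ 16)) ∧
    ∑' z : V d, (nm z : ℝ≥0∞) * (tau d p z * CG.t2 d p z) ≤ ENNReal.ofReal A ∧
    2 * d * p ≤ 12 / 11 ∧ InpW 8 d p (lacX d p) := by
  obtain ⟨K0, C, hK0, hC, h⟩ := crit_wm 8 (by norm_num)
  obtain ⟨d0, hd0⟩ := h 1 one_pos
  set c : ℝ := ((4 ^ 8 : ℕ) : ℝ) with hc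
  have hc1 : (1 : ℝ) ≤ c := by rw [hc]; norm_num
  set A : ℝ := 1 + C + 2 ^ 16 * (2 * c ^ 3 * K0) with hA
  have hA0 : 0 ≤ 2 * c ^ 3 * K0 := by positivity
  refine ⟨A, by rw [hA]; nlinarith, max d0 1, ?_⟩
  intro d hd p h0 hp
  have hd1 : 1 ≤ d := (le_max_right _ _).trans hd
  have h1 : p ≤ 1 := hp.le.trans (SH.pcc_le_one hd1)
  obtain ⟨hsq, -, hdp, hmom, hI⟩ := hd0 d ((le_max_left _ _).trans hd) p h0 hp
  have hw : Wt (wm (d := d) 8) (4 ^ 8) := wm_wt 8 (by norm_num)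
  refine ⟨?_, ?_, ?_, hdp, hI⟩
  · refine le_trans (ENNReal.tsum_le_tsum fun x => ?_) (hmom.trans (mul_le_mul' ?_ le_rfl))
    · refine mul_le_mul' ?_ le_rfl
      rw [← ENNReal.ofReal_natCast]
      exact ENNReal.ofReal_le_ofReal (nm_pow_le 8 (by norm_num) x)
    · exact ENNReal.ofReal_le_ofReal (by rw [hA]; nlinarith)
  · intro z
    have e1 := rgh_t4 hw h0 h1 z
    have hpos : 0 < (1 + (nm z : ℝ)) ^ 16 := by positivity
    have e2 : ENNReal.ofReal ((1 + (nm z : ℝ)) ^ 16) * CG.t4 d p z ≤ ENNReal.ofReal A := by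
      calc ENNReal.ofReal ((1 + (nm z : ℝ)) ^ 16) * CG.t4 d p z
          ≤ ENNReal.ofReal (2 ^ 16 * (wm 8 z : ℝ)) * CG.t4 d p z :=
            mul_le_mul' (ENNReal.ofReal_le_ofReal (one_nm_pow_le 8 (by norm_num) z)) le_rfl
        _ = ENNReal.ofReal (2 ^ 16) * ((wm 8 z : ℝ≥0∞) * CG.t4 d p z) := by
            rw [ENNReal.ofReal_mul (by positivity), ENNReal.ofReal_natCast, mul_assoc]
        _ ≤ ENNReal.ofReal (2 ^ 16) * (2 * (((4 ^ 8 : ℕ) : ℝ≥0∞)) ^ 3 *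
              H95LE.sq (gw (wm 8 : V d → ℕ) p)) := mul_le_mul' le_rfl e1
        _ ≤ ENNReal.ofReal (2 ^ 16) * (2 * (((4 ^ 8 : ℕ) : ℝ≥0∞)) ^ 3 * ENNReal.ofReal K0) :=
            mul_le_mul' le_rfl (mul_le_mul' le_rfl hsq)
        _ = ENNReal.ofReal (2 ^ 16 * (2 * c ^ 3 * K0)) := by
            have e3 : ENNReal.ofReal (c ^ 3) = (((4 ^ 8 : ℕ) : ℝ≥0∞)) ^ 3 := by
              rw [ENNReal.ofReal_pow (by positivity), hc, ENNReal.ofReal_natCast]
            have e4 : ENNReal.ofReal (2 : ℝ) = 2 := by norm_num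
            rw [ENNReal.ofReal_mul (p := 2 ^ 16) (by positivity),
              ENNReal.ofReal_mul (p := 2 * c ^ 3) (by positivity),
              ENNReal.ofReal_mul (p := 2) (by positivity), e3, e4]
        _ ≤ _ := ENNReal.ofReal_le_ofReal (by rw [hA]; nlinarith)
    rw [ENNReal.ofReal_div_of_pos hpos, ENNReal.le_div_iff_mul_le
      (Or.inl (by rw [ne_eq, ENNReal.ofReal_eq_zero, not_le]; exact hpos))
      (Or.inl ENNReal.ofReal_ne_top), mul_comm]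
    exact e2
  · refine le_trans (ENNReal.tsum_le_tsum fun z => ?_) ((rgh_tri hw h0 h1).trans (hsq.trans ?_))
    · refine mul_le_mul' ?_ le_rfl
      have e1 : (nm z : ℝ) ≤ (wm 8 z : ℝ) := by
        rcases Nat.eq_zero_or_pos (nm z) with h | h
        · rw [h, Nat.cast_zero]
          exact Nat.cast_nonneg _
        · have h1 : (1 : ℝ) ≤ nm z := by exact_mod_cast h
          calc (nm z : ℝ) = (nm z : ℝ) ^ 1 := (pow_one _).symm
            _ ≤ (nm z : ℝ) ^ (2 * 8) := pow_le_pow_right₀ h1 (by norm_num)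
            _ ≤ _ := nm_pow_le 8 (by norm_num) z
      exact_mod_cast e1
    · refine ENNReal.ofReal_le_ofReal ?_
      rw [hA]
      have : K0 ≤ 2 * c ^ 3 * K0 := by
        have h3 : 1 ≤ c ^ 3 := one_le_pow₀ hc1
        nlinarith
      nlinarith

end H4LW
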