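import Pool.Agent.H15.LE.Asm
import Pool.Agent.H4.LW.Jf

/-!
PROJECT LE, block LW (captain helper4), job LW-XB. Bounds for the transforms of `x_j^n X` and `x_j^n (J * X)`.

PROOF. `hI := h.inp hm : Inp d p X` gives the lemmas of H15/LE/Asm.lean: `hI.xfl`, `hI.xpm` (symmetries of `X`), `hI.x1_le`, `hI.norm_x`,
`hI.j0_le`, `hI.p_le`, `hI.lam`. `pow_avg`: by `hI.xpm (Equiv.swap i j)` (`pmE`, `Equiv.tsum_eq`) the sums `Σ |x_i|^(2m) |X|` do not depend on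
`i`, and their sum over `i` is `Σ (wm m x - 1) |X x| = Σ (wm m x - 1) |X x - δ x| ≤ Σ wm m x |X x - δ x| ≤ 1/12` (`wm m 0 = 1` because `1 ≤ m`;
`wm_real`), as in `sq_avg`, `sq_bd` of H15/LE/Cosn.lean; so `d Σ_x |x_j|^(2m) |X x| ≤ 1/12`.
`x_bd`: `‖ft (mn j n X) k‖ ≤ Σ |x_j|^n |X| ≤ Σ |x_j|^(2m) |X|` (`norm_ft_le`, `abs_mn`, `int_pow_le`).
`phi_bd`: `ft_mn_sh`; the terms: `i = 0`: `|j0| ≤ 12/11` (`jf_zero`), `‖ft (mn j n X)‖ ≤ 1/(12 d)`; `1 ≤ i ≤ n - 1`: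
`C(n,i) (2p) (1/(12 d))`; `i = n`: `2p * (13/12)` (`mn j 0 X = X`), with `2 p ≤ (12/11)/d`; total `≤ (2^n + 12)/(11 d) ≤ 2^(n+1)/d`
(`Nat.sum_range_choose`, or bound every term by `C(n,i)/d` except use `2^n/d + ...`; every term is `≤ C(n,i) * (13/11)/d` and
`2^n * (13/11) ≤ 2^(n+1)`, which is the simplest way). `phi_bd1`: two terms, `j0 * ft (mn j 1 X) + ft (mn j 1 J) * ft X`:
`(12/11)(|k_j|/d)/12 + (12/11)(|k_j|/d)(13/12) ≤ 2 |k_j| / d`.
-/

namespace H4LW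

open H5DF H95LBD H95LE H15LE MeasureTheory

variable {d : ℕ}

lemma XB_sum {m : ℕ} {f : V d → ℝ} (hf : WM m f) (j : Fin d) :
    Summable fun x : V d => |(x j : ℝ)| ^ (2 * m) * |f x| := by
  refine Summable.of_nonneg_of_le (fun x => by positivity) (fun x => ?_) hf
  exact mul_le_mul_of_nonneg_right (top_le_wm m j x) (abs_nonneg _)

lemma XB_avg {m : ℕ} {f : V d → ℝ} (hf : WM m f) (hp : ∀ σ x, f (pm σ x) = f x) (j : Fin d) :
    (d : ℝ) * ∑' x, |(x j : ℝ)| ^ (2 * m) * |f x| =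
      ∑' x, (∑ i, |(x i : ℝ)| ^ (2 * m)) * |f x| := by
  have h1 : ∀ i : Fin d, ∑' x : V d, |(x i : ℝ)| ^ (2 * m) * |f x| =
      ∑' x, |(x j : ℝ)| ^ (2 * m) * |f x| := by
    intro i
    rw [← Equiv.tsum_eq (pmE (Equiv.swap i j))]
    refine tsum_congr fun x => ?_
    show |((pm (Equiv.swap i j) x) i : ℝ)| ^ (2 * m) * |f (pm (Equiv.swap i j) x)| = _
    rw [hp]
    simp [pm]
  have h2 : ∀ x : V d, (∑ i, |(x i : ℝ)| ^ (2 * m)) * |f x| =
      ∑ i, |(x i : ℝ)| ^ (2 * m) * |f x| := fun x => Finset.sum_mul _ _ _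
  simp_rw [h2]
  rw [Summable.tsum_finsetSum fun i _ => XB_sum hf i, Finset.sum_congr rfl fun i _ => h1 i]
  simp

lemma XB_wm {m : ℕ} (x : V d) : (wm m x : ℝ) = 1 + ∑ i, |(x i : ℝ)| ^ (2 * m) := by
  rw [wm_real]
  congr 1
  refine Finset.sum_congr rfl fun i _ => ?_
  rw [pow_mul, pow_mul, sq_abs]

theorem pow_avg {m : ℕ} {p : ℝ} {X : V d → ℝ} (hm : 1 ≤ m) (h : InpW m d p X) (j : Fin d) :
    ∑' x, |(x j : ℝ)| ^ (2 * m) * |X x| ≤ 1 / (12 * d) := by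
  have hI := h.inp hm
  have hd' : (0 : ℝ) < d := by exact_mod_cast h.d0
  have h1 := XB_avg h.sX hI.xpm j
  have h2 : ∑' x, (∑ i, |(x i : ℝ)| ^ (2 * m)) * |X x|
      ≤ ∑' x, (wm m x : ℝ) * |X x - (if x = 0 then 1 else 0)| := by
    have hS : Summable fun x : V d => (∑ i, |(x i : ℝ)| ^ (2 * m)) * |X x| := by
      refine Summable.of_nonneg_of_le (fun x => by positivity) (fun x => ?_) h.sX
      refine mul_le_mul_of_nonneg_right ?_ (abs_nonneg _)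
      rw [XB_wm]
      linarith
    refine hS.tsum_le_tsum (fun x => ?_) h.sX.sub_delta
    by_cases hx : x = 0
    · subst hx
      have h0 : (∑ i : Fin d, |(((0 : V d) i : ℤ) : ℝ)| ^ (2 * m)) = 0 := by
        refine Finset.sum_eq_zero fun i _ => ?_
        rw [Pi.zero_apply, Int.cast_zero, abs_zero, zero_pow (by omega)]
      rw [h0, zero_mul]
      positivity
    · rw [if_neg hx, sub_zero, XB_wm]
      refine mul_le_mul_of_nonneg_right ?_ (abs_nonneg _)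
      linarith
  rw [le_div_iff₀ (by positivity)]
  nlinarith [h1, h2, h.bX]

theorem x_bd {m n : ℕ} {p : ℝ} {X : V d → ℝ} (hm : 1 ≤ m) (h : InpW m d p X) (hn : 1 ≤ n)
    (hn2 : n ≤ 2 * m) (j : Fin d) (k : Fin d → ℝ) : ‖ft (mn j n X) k‖ ≤ 1 / (12 * d) := by
  refine (norm_ft_le (h.sX.mn j hn2) k).trans (le_trans ?_ (pow_avg hm h j))
  refine (h.sX.mn j hn2).abs.tsum_le_tsum (fun x => ?_) (XB_sum h.sX j)
  rw [abs_mn]
  exact mul_le_mul_of_nonneg_right (int_pow_le hn hn2) (abs_nonneg _)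

lemma XB_term {m n : ℕ} {p : ℝ} {X : V d → ℝ} (hm : 1 ≤ m) (h : InpW m d p X) (hn : 1 ≤ n)
    (hn2 : n ≤ 2 * m) (j : Fin d) (k : Fin d → ℝ) {i : ℕ} (hi : i ≤ n) :
    ‖ft (mn j i (jf d p)) k * ft (mn j (n - i) X) k‖ ≤ 13 / 11 * (1 / d) := by
  have hI := h.inp hm
  have hd1 : (1 : ℝ) ≤ d := by exact_mod_cast h.d0
  have hd : (0 : ℝ) < d := by linarith
  have hdi : (1 : ℝ) / d ≤ 1 := by
    rw [div_le_one hd]
    exact hd1
  have hdi0 : (0 : ℝ) ≤ 1 / d := by positivity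
  rw [norm_mul]
  rcases Nat.eq_zero_or_pos i with h0 | h0
  · subst h0
    rw [jf_zero, Nat.sub_zero, Complex.norm_real, Real.norm_eq_abs]
    calc |j0 p k| * ‖ft (mn j n X) k‖ ≤ 12 / 11 * (1 / (12 * d)) :=
          mul_le_mul (hI.j0_le k) (x_bd hm h hn hn2 j k) (norm_nonneg _) (by norm_num)
      _ = 1 / 11 * (1 / d) := by field_simp
      _ ≤ 13 / 11 * (1 / d) := mul_le_mul_of_nonneg_right (by norm_num) hdi0
  · have hJ : ‖ft (mn j i (jf d p)) k‖ ≤ 12 / 11 * (1 / d) := (jf_bd j h0 h.p0 k).trans hI.p_le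
    rcases Nat.lt_or_ge i n with h1 | h1
    · calc ‖ft (mn j i (jf d p)) k‖ * ‖ft (mn j (n - i) X) k‖
          ≤ (12 / 11 * (1 / d)) * (1 / (12 * d)) :=
            mul_le_mul hJ (x_bd hm h (by omega) (by omega) j k) (norm_nonneg _) (by positivity)
        _ = 1 / 11 * (1 / d) * (1 / d) := by field_simp
        _ ≤ 1 / 11 * (1 / d) * 1 := mul_le_mul_of_nonneg_left hdi (by positivity)
        _ ≤ 13 / 11 * (1 / d) := by
          rw [mul_one]
          exact mul_le_mul_of_nonneg_right (by norm_num) hdi0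
    · have h2 : n - i = 0 := by omega
      rw [h2, mn_zero]
      calc ‖ft (mn j i (jf d p)) k‖ * ‖ft X k‖ ≤ (12 / 11 * (1 / d)) * (13 / 12) :=
            mul_le_mul hJ (hI.norm_x k) (norm_nonneg _) (by positivity)
        _ = 13 / 11 * (1 / d) := by ring

theorem phi_bd {m n : ℕ} {p : ℝ} {X : V d → ℝ} (hm : 1 ≤ m) (h : InpW m d p X) (hn : 1 ≤ n)
    (hn2 : n ≤ 2 * m) (j : Fin d) (k : Fin d → ℝ) :
    ‖ft (mn j n (sh p X)) k‖ ≤ 2 ^ (n + 1) / d := by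
  have hd : (0 : ℝ) < d := by exact_mod_cast h.d0
  rw [ft_mn_sh j n p (fun i hi => h.sX.mn j (hi.trans hn2)) k]
  refine (norm_sum_le _ _).trans ?_
  have h1 : ∀ i ∈ Finset.range (n + 1),
      ‖(n.choose i : ℂ) * (ft (mn j i (jf d p)) k * ft (mn j (n - i) X) k)‖
        ≤ (n.choose i : ℝ) * (13 / 11 * (1 / d)) := by
    intro i hi
    have hi' : i ≤ n := by
      have := Finset.mem_range.1 hi
      omega
    rw [norm_mul, Complex.norm_natCast]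
    exact mul_le_mul_of_nonneg_left (XB_term hm h hn hn2 j k hi') (Nat.cast_nonneg _)
  refine (Finset.sum_le_sum h1).trans ?_
  have h2 : (∑ i ∈ Finset.range (n + 1), (n.choose i : ℝ)) = 2 ^ n := by
    have := Nat.sum_range_choose n
    exact_mod_cast this
  rw [← Finset.sum_mul, h2, pow_succ, mul_div_assoc]
  refine mul_le_mul_of_nonneg_left ?_ (by positivity)
  rw [div_eq_mul_one_div (2 : ℝ)]
  exact mul_le_mul_of_nonneg_right (by norm_num) (by positivity)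

theorem phi_bd1 {m : ℕ} {p : ℝ} {X : V d → ℝ} (hm : 1 ≤ m) (h : InpW m d p X)
    (j : Fin d) (k : Fin d → ℝ) : ‖ft (mn j 1 (sh p X)) k‖ ≤ 2 * |k j| / d := by
  have hI := h.inp hm
  have hd : (0 : ℝ) < d := by exact_mod_cast h.d0
  rw [ft_mn_sh j 1 p (fun i hi => h.sX.mn j (by omega)) k]
  rw [Finset.sum_range_succ, Finset.sum_range_one]
  simp only [Nat.choose_zero_right, Nat.choose_self, Nat.cast_one, one_mul, Nat.sub_zero,
    Nat.sub_self]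
  rw [jf_zero, mn_one j X, mn_zero j X]
  refine (norm_add_le _ _).trans ?_
  rw [norm_mul, norm_mul, Complex.norm_real, Real.norm_eq_abs]
  have h1 : |j0 p k| * ‖ft (mx j X) k‖ ≤ 12 / 11 * ((|k j| / d) / 12) :=
    mul_le_mul (hI.j0_le k) (hI.x1_le j k) (norm_nonneg _) (by norm_num)
  have h3 : ‖ft (mn j 1 (jf d p)) k‖ ≤ 12 / 11 * (1 / d) * |k j| :=
    (jf_bd1 j h.p0 k).trans (mul_le_mul_of_nonneg_right hI.p_le (abs_nonneg _))
  have h2 : ‖ft (mn j 1 (jf d p)) k‖ * ‖ft X k‖ ≤ (12 / 11 * (1 / d) * |k j|) * (13 / 12) :=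
    mul_le_mul h3 (hI.norm_x k) (norm_nonneg _) (by positivity)
  have h4 : (0 : ℝ) ≤ |k j| / d := by positivity
  have h5 : 12 / 11 * (1 / (d : ℝ)) * |k j| * (13 / 12) = 13 / 11 * (|k j| / d) := by ring
  have h6 : 2 * |k j| / (d : ℝ) = 2 * (|k j| / d) := by ring
  rw [h5] at h2
  rw [h6]
  linarith

end H4LW
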